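import Mathlib

/-! Paths lying on cycles in regular `k`-connected graphs: definitions and general lemmas. -/

namespace Pool.Agent.H568.PC

open SimpleGraph

/-- `k`-connectivity of a finite graph: every graph is `0`-connected; for `k ≥ 1` the graph has
more than `k` vertices and stays connected after deleting any set of fewer than `k` vertices. -/
def KConn (k : ℕ) {V : Type} [Fintype V] (G : SimpleGraph V) : Prop :=
  k = 0 ∨ (k < Fintype.card V ∧
    ∀ X : Finset V, X.card < k → (G.induce ((X : Set V)ᶜ)).Connected)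

/-- The path `p` closes to a cycle: `G` has a cycle containing `p` as a subgraph. -/
def Closes {V : Type} {G : SimpleGraph V} {a b : V} (p : G.Walk a b) : Prop :=
  ∃ (u : V) (c : G.Walk u u), c.IsCycle ∧ p.toSubgraph ≤ c.toSubgraph

/-- `S d k`: the set of `ℓ` such that in every `d`-regular `k`-connected finite graph every path
with `ℓ` edges closes to a cycle. -/
def S (d k : ℕ) : Set ℕ :=
  {ℓ | ∀ (V : Type) [Fintype V] (G : SimpleGraph V), (∀ v, (G.neighborSet v).ncard = d) →
    KConn k G → ∀ (a b : V) (p : G.Walk a b), p.IsPath → p.length = ℓ → Closes p}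

/-- A sequence of distinct vertices, consecutively adjacent, gives a path. -/
theorem exists_walk_of_fun {V : Type} {G : SimpleGraph V} (f : ℕ → V) (n : ℕ)
    (h : ∀ i < n, G.Adj (f i) (f (i + 1)))
    (inj : ∀ i ≤ n, ∀ j ≤ n, f i = f j → i = j) :
    ∃ p : G.Walk (f 0) (f n), p.IsPath ∧ p.length = n ∧ ∀ i ≤ n, p.getVert i = f i := by
  induction n with
  | zero =>
    refine ⟨Walk.nil, Walk.IsPath.nil, rfl, ?_⟩
    intro i hi
    have : i = 0 := by omega
    subst this
    rfl
  | succ n ih =>
    obtain ⟨p, hp, hl, hg⟩ := ih (fun i hi => h i (by omega))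
      (fun i hi j hj => inj i (by omega) j (by omega))
    refine ⟨p.concat (h n (by omega)), ?_, ?_, ?_⟩
    · refine hp.concat ?_ _
      intro hmem
      rw [Walk.mem_support_iff_exists_getVert] at hmem
      obtain ⟨i, hi, hle⟩ := hmem
      rw [hl] at hle
      rw [hg i hle] at hi
      have := inj i (by omega) (n + 1) (le_refl _) hi
      omega
    · rw [Walk.length_concat, hl]
    · intro i hi
      rw [Walk.concat_eq_append, Walk.getVert_append]
      by_cases h1 : i < p.length
      · rw [if_pos h1]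
        exact hg i (by omega)
      · rw [if_neg h1]
        have h2 : i = n ∨ i = n + 1 := by omega
        rcases h2 with h2 | h2
        · subst h2
          rw [hl]
          simp
        · subst h2
          rw [hl]
          simp

/-- parity of crossings -/
theorem odd_cross {V : Type} {G : SimpleGraph V} (A : Set V) [DecidablePred
    (fun e : Sym2 V => ∃ x ∈ A, ∃ y ∉ A, e = s(x, y))] {a b : V} (p : G.Walk a b) :
    Odd (p.edges.filter (fun e : Sym2 V => ∃ x ∈ A, ∃ y ∉ A, e = s(x, y))).length ↔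
      ¬ (a ∈ A ↔ b ∈ A) := by
  induction p with
  | nil => simp
  | @cons u v w h q ih =>
    rw [Walk.edges_cons, List.filter_cons]
    have key : (∃ x ∈ A, ∃ y ∉ A, s(u, v) = s(x, y)) ↔ ¬ (u ∈ A ↔ v ∈ A) := by
      constructor
      · rintro ⟨x, hx, y, hy, he⟩
        rw [Sym2.eq_iff] at he
        rcases he with ⟨rfl, rfl⟩ | ⟨rfl, rfl⟩
        · tauto
        · tauto
      · intro hh
        by_cases hu : u ∈ A
        · exact ⟨u, hu, v, by tauto, rfl⟩
        · exact ⟨v, by tauto, u, hu, Sym2.eq_swap⟩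
    by_cases hc : ∃ x ∈ A, ∃ y ∉ A, s(u, v) = s(x, y)
    · rw [if_pos (by simpa using hc), List.length_cons, Nat.odd_add_one]
      rw [ih]
      rw [key] at hc
      tauto
    · rw [if_neg (by simpa using hc), ih]
      rw [key] at hc
      tauto

/-- The obstruction: if the path starts in `A`, ends outside `A` and every edge leaving `A`
ends in an interior vertex of the path, then the path lies on no cycle. -/
theorem not_closes {V : Type} {G : SimpleGraph V} {a b : V} (p : G.Walk a b)
    (hp : p.IsPath) (A : Set V) (ha : a ∈ A) (hb : b ∉ A)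
    (hA : ∀ x ∈ A, ∀ y ∉ A, G.Adj x y → ∃ i, 0 < i ∧ i < p.length ∧ p.getVert i = y) :
    ¬ Closes p := by
  classical
  rintro ⟨u, c, hc, hle⟩
  have h1 := (odd_cross A p).2 (by tauto)
  have h2 := (odd_cross A c)
  have hsub : ∀ e ∈ p.edges, e ∈ c.edges := by
    intro e he
    rw [← Walk.mem_edges_toSubgraph] at he ⊢
    exact Subgraph.edgeSet_mono hle he
  have hback : ∀ x ∈ A, ∀ y ∉ A, s(x, y) ∈ c.edges → s(x, y) ∈ p.edges := by
    intro x hx y hy he
    have hadj : G.Adj x y := c.adj_of_mem_edges he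
    obtain ⟨i, hi0, hil, hi⟩ := hA x hx y hy hadj
    have e1 : (p.toSubgraph.neighborSet y).ncard = 2 := by
      rw [← hi]
      exact hp.ncard_neighborSet_toSubgraph_internal_eq_two (by omega) hil
    have hys : y ∈ c.support := Walk.snd_mem_support_of_mem_edges _ he
    have e2 : (c.toSubgraph.neighborSet y).ncard = 2 :=
      hc.ncard_neighborSet_toSubgraph_eq_two hys
    have e3 : p.toSubgraph.neighborSet y ⊆ c.toSubgraph.neighborSet y := by
      intro z hz
      exact hle.2 hz
    have e4 : p.toSubgraph.neighborSet y = c.toSubgraph.neighborSet y :=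
      Set.eq_of_subset_of_ncard_le e3 (by rw [e1, e2]) (Walk.finite_neighborSet_toSubgraph c)
    have e5 : x ∈ c.toSubgraph.neighborSet y := by
      rw [Subgraph.mem_neighborSet, Walk.adj_toSubgraph_iff_mem_edges, Sym2.eq_swap]
      exact he
    rw [← e4, Subgraph.mem_neighborSet, Walk.adj_toSubgraph_iff_mem_edges, Sym2.eq_swap] at e5
    exact e5
  have n1 : (p.edges.filter (fun e : Sym2 V => ∃ x ∈ A, ∃ y ∉ A, e = s(x, y))).Nodup :=
    List.Nodup.filter _ hp.isTrail.edges_nodup
  have n2 : (c.edges.filter (fun e : Sym2 V => ∃ x ∈ A, ∃ y ∉ A, e = s(x, y))).Nodup :=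
    List.Nodup.filter _ hc.isCircuit.isTrail.edges_nodup
  have hEq : (p.edges.filter (fun e : Sym2 V => ∃ x ∈ A, ∃ y ∉ A, e = s(x, y))).toFinset =
      (c.edges.filter (fun e : Sym2 V => ∃ x ∈ A, ∃ y ∉ A, e = s(x, y))).toFinset := by
    ext e
    rw [List.mem_toFinset, List.mem_toFinset, List.mem_filter, List.mem_filter]
    simp only [decide_eq_true_eq]
    constructor
    · rintro ⟨h3, h4⟩
      exact ⟨hsub e h3, h4⟩
    · rintro ⟨h3, x, hx, y, hy, rfl⟩
      exact ⟨hback x hx y hy h3, x, hx, y, hy, rfl⟩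
  have hlen := congrArg Finset.card hEq
  rw [List.toFinset_card_of_nodup n1, List.toFinset_card_of_nodup n2] at hlen
  rw [hlen] at h1
  exact h2.1 h1 Iff.rfl

/-! ### Connectivity tools -/

/-- reachability avoiding `X` -/
def Rch {V : Type} (G : SimpleGraph V) (X : Set V) (x y : V) : Prop :=
  Relation.ReflTransGen (fun u v => G.Adj u v ∧ u ∉ X ∧ v ∉ X) x y

theorem Rch.refl {V : Type} {G : SimpleGraph V} {X : Set V} (x : V) : Rch G X x x :=
  Relation.ReflTransGen.refl

theorem Rch.trans {V : Type} {G : SimpleGraph V} {X : Set V} {x y z : V}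
    (h1 : Rch G X x y) (h2 : Rch G X y z) : Rch G X x z :=
  Relation.ReflTransGen.trans h1 h2

theorem Rch.symm {V : Type} {G : SimpleGraph V} {X : Set V} {x y : V}
    (h1 : Rch G X x y) : Rch G X y x := by
  unfold Rch at *
  induction h1 with
  | refl => exact Relation.ReflTransGen.refl
  | tail _ h ih => exact Relation.ReflTransGen.head ⟨h.1.symm, h.2.2, h.2.1⟩ ih

theorem Rch.single {V : Type} {G : SimpleGraph V} {X : Set V} {x y : V}
    (h : G.Adj x y) (hx : x ∉ X) (hy : y ∉ X) : Rch G X x y :=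
  Relation.ReflTransGen.single ⟨h, hx, hy⟩

theorem reachable_of_rch {V : Type} {G : SimpleGraph V} {X : Set V} {x y : V}
    (h : Rch G X x y) (hx : x ∉ X) : ∃ hy : y ∉ X,
      (G.induce (Xᶜ)).Reachable ⟨x, hx⟩ ⟨y, hy⟩ := by
  unfold Rch at h
  induction h with
  | refl => exact ⟨hx, Reachable.refl _⟩
  | @tail b c _ h ih =>
    obtain ⟨hb, hr⟩ := ih
    refine ⟨h.2.2, hr.trans ?_⟩
    apply Adj.reachable
    exact h.1

theorem connected_of_root {V : Type} {G : SimpleGraph V} {X : Set V} (r : V) (hr : r ∉ X)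
    (h : ∀ x, x ∉ X → Rch G X x r) : (G.induce (Xᶜ)).Connected := by
  have : Nonempty (Xᶜ : Set V) := ⟨⟨r, hr⟩⟩
  refine ⟨fun x y => ?_⟩
  have h1 := h x.1 x.2
  have h2 := h y.1 y.2
  obtain ⟨_, h3⟩ := reachable_of_rch (h1.trans h2.symm) x.2
  exact h3

theorem rch_of_reachable {V : Type} {G : SimpleGraph V} {X : Set V} (x y : (Xᶜ : Set V))
    (h : (G.induce (Xᶜ)).Reachable x y) : Rch G X x.1 y.1 := by
  rw [reachable_iff_reflTransGen] at h
  induction h with
  | refl => exact Rch.refl _
  | @tail b c _ h ih => exact ih.trans (Rch.single h b.2 c.2)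

/-- a walk avoiding `X` -/
theorem exists_walk_of_rch {V : Type} {G : SimpleGraph V} {X : Set V} {x y : V}
    (h : Rch G X x y) (hx : x ∉ X) : ∃ q : G.Walk x y, ∀ z ∈ q.support, z ∉ X := by
  unfold Rch at h
  induction h with
  | refl => exact ⟨Walk.nil, by simpa using hx⟩
  | @tail b c _ h ih =>
    obtain ⟨q, hq⟩ := ih
    refine ⟨q.concat h.1, ?_⟩
    intro z hz
    rw [Walk.support_concat, List.mem_append] at hz
    rcases hz with hz | hz
    · exact hq z hz
    · rw [List.mem_singleton] at hz
      subst hz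
      exact h.2.2

/-- a path avoiding `X` -/
theorem exists_path_avoiding {V : Type} {G : SimpleGraph V} {X : Set V} {x y : V}
    (h : (G.induce (Xᶜ)).Connected) (hx : x ∉ X) (hy : y ∉ X) :
    ∃ q : G.Walk x y, q.IsPath ∧ ∀ z ∈ q.support, z ∉ X := by
  classical
  have h1 := rch_of_reachable (G := G) (X := X) ⟨x, hx⟩ ⟨y, hy⟩ (h.preconnected _ _)
  obtain ⟨q, hq⟩ := exists_walk_of_rch h1 hx
  exact ⟨q.bypass, Walk.bypass_isPath q, fun z hz => hq z (Walk.support_bypass_subset_support q hz)⟩

theorem kconn_mono {k k' : ℕ} (h : k ≤ k') {V : Type} [Fintype V] {G : SimpleGraph V}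
    (hG : KConn k' G) : KConn k G := by
  rcases hG with hG | ⟨h1, h2⟩
  · left; omega
  · right
    exact ⟨by omega, fun X hX => h2 X (by omega)⟩

end Pool.Agent.H568.PC
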