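import Pool.Agent.H568.PC.Lower

/-! For odd `d ≥ 3`: a connected `d`-regular graph with a vertex on no cycle. -/

namespace Pool.Agent.H568.PC

open SimpleGraph

def bdp (a b : ℕ) : Prop := (a = 0 ∧ (b = 1 ∨ b = 2)) ∨ (b = 0 ∧ (a = 1 ∨ a = 2)) ∨
  (3 ≤ a ∧ a % 2 = 1 ∧ b = a + 1) ∨ (3 ≤ b ∧ b % 2 = 1 ∧ a = b + 1)

def brAdj (d : ℕ) : Option (Fin d × Fin (d + 2)) → Option (Fin d × Fin (d + 2)) → Prop
  | none, none => False
  | none, some q => q.2.val = 0
  | some p, none => p.2.val = 0
  | some p, some q => p.1 = q.1 ∧ p.2.val ≠ q.2.val ∧ ¬ bdp p.2.val q.2.val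

def brG (d : ℕ) : SimpleGraph (Option (Fin d × Fin (d + 2))) where
  Adj := brAdj d
  symm := ⟨by
    rintro (_ | p) (_ | q) h <;> simp only [brAdj] at h ⊢
    · exact h
    · exact h
    · refine ⟨h.1.symm, h.2.1.symm, ?_⟩
      have := h.2.2
      unfold bdp at *
      omega⟩
  loopless := ⟨by
    rintro (_ | p) h <;> simp only [brAdj] at h
    exact h.2.1 rfl⟩

theorem brG_adj {d : ℕ} (x y : Option (Fin d × Fin (d + 2))) :
    (brG d).Adj x y ↔ brAdj d x y := Iff.rfl

def qp (a : ℕ) : ℕ := if a ≤ 2 then 0 else if a % 2 = 1 then a + 1 else a - 1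

theorem brG_degree {d : ℕ} (hd : 3 ≤ d) (hodd : Odd d) (v : Option (Fin d × Fin (d + 2))) :
    ((brG d).neighborSet v).ncard = d := by
  have hodd' : d % 2 = 1 := Nat.odd_iff.1 hodd
  rcases v with _ | ⟨j, a⟩
  · have h : (brG d).neighborSet none =
        (fun j : Fin d => (some (j, ⟨0, by omega⟩) : Option (Fin d × Fin (d + 2)))) ''
          Set.univ := by
      ext x
      rcases x with _ | ⟨j, a⟩
      · simp [brG_adj]
      · simp only [mem_neighborSet, brG_adj, brAdj, Set.mem_image, Set.mem_univ, true_and,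
          Option.some.injEq, Prod.mk.injEq]
        constructor
        · intro h
          exact ⟨j, rfl, Fin.ext h.symm⟩
        · rintro ⟨j', _, h⟩
          rw [← h]
    rw [h, Set.ncard_image_of_injective, Set.ncard_univ, Nat.card_fin]
    intro a b hab
    simpa using hab
  · have ha2 := a.2
    have hinj : Function.Injective
        (fun b : Fin (d + 2) => (some (j, b) : Option (Fin d × Fin (d + 2)))) := by
      intro b c hbc
      simpa using hbc
    by_cases ha : a.val = 0
    · have h : (brG d).neighborSet (some (j, a)) = {none} ∪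
          (fun b : Fin (d + 2) => (some (j, b) : Option (Fin d × Fin (d + 2)))) ''
            ({⟨0, by omega⟩, ⟨1, by omega⟩, ⟨2, by omega⟩} : Set (Fin (d + 2)))ᶜ := by
        ext x
        rcases x with _ | ⟨j', b⟩
        · simp [brG_adj, brAdj, ha]
        · simp only [mem_neighborSet, brG_adj, brAdj, Set.mem_union, Set.mem_singleton_iff,
            Set.mem_image, Set.mem_compl_iff, Set.mem_insert_iff, Option.some.injEq,
            Prod.mk.injEq, Fin.ext_iff, bdp]
          constructor
          · rintro ⟨h1, h2⟩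
            right
            exact ⟨b, by omega, h1, rfl⟩
          · rintro (h1 | ⟨b', h1, h2, h3⟩)
            · cases h1
            · refine ⟨h2, ?_⟩
              omega
      rw [h, Set.ncard_union_eq, Set.ncard_singleton, Set.ncard_image_of_injective _ hinj,
        Set.ncard_compl, Nat.card_fin]
      · have : ({⟨0, by omega⟩, ⟨1, by omega⟩, ⟨2, by omega⟩} : Set (Fin (d + 2))).ncard = 3 := by
          rw [Set.ncard_eq_three]
          refine ⟨_, _, _, ?_, ?_, ?_, rfl⟩ <;> simp
        rw [this]
        omega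
      · rw [Set.disjoint_left]
        rintro x hx ⟨b, _, hb⟩
        rw [Set.mem_singleton_iff] at hx
        subst hx
        cases hb
    · have hq : qp a.val < d + 2 := by
        unfold qp
        split_ifs <;> omega
      have h : (brG d).neighborSet (some (j, a)) =
          (fun b : Fin (d + 2) => (some (j, b) : Option (Fin d × Fin (d + 2)))) ''
            ({a, ⟨qp a.val, hq⟩} : Set (Fin (d + 2)))ᶜ := by
        ext x
        rcases x with _ | ⟨j', b⟩
        · simp [brG_adj, brAdj, ha]
        · simp only [mem_neighborSet, brG_adj, brAdj,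
            Set.mem_image, Set.mem_compl_iff, Set.mem_insert_iff, Set.mem_singleton_iff,
            Option.some.injEq, Prod.mk.injEq, Fin.ext_iff, bdp]
          constructor
          · rintro ⟨h1, h2⟩
            refine ⟨b, ?_, h1, rfl⟩
            unfold qp
            split_ifs <;> omega
          · rintro ⟨b', h1, h2, h3⟩
            refine ⟨h2, ?_⟩
            unfold qp at h1
            split_ifs at h1 <;> omega
      rw [h, Set.ncard_image_of_injective _ hinj, Set.ncard_compl, Nat.card_fin, Set.ncard_pair]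
      · omega
      · intro h
        rw [Fin.ext_iff] at h
        simp only [qp] at h
        split_ifs at h <;> omega

theorem brG_kconn {d : ℕ} (hd : 3 ≤ d) : KConn 1 (brG d) := by
  right
  refine ⟨?_, ?_⟩
  · rw [Fintype.card_option, Fintype.card_prod, Fintype.card_fin, Fintype.card_fin]
    nlinarith
  intro X hX
  have hX0 : X = ∅ := Finset.card_eq_zero.1 (by omega)
  subst hX0
  have hn : ∀ x : Option (Fin d × Fin (d + 2)),
      x ∉ ((∅ : Finset (Option (Fin d × Fin (d + 2)))) : Set (Option (Fin d × Fin (d + 2)))) := by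
    intro x
    simp
  refine connected_of_root none (hn _) ?_
  have h0 : ∀ j : Fin d, Rch (brG d) ((∅ : Finset (Option (Fin d × Fin (d + 2)))) :
      Set (Option (Fin d × Fin (d + 2)))) (some (j, ⟨0, by omega⟩)) none := by
    intro j
    exact Rch.single ((brG_adj _ _).2 (by simp [brAdj])) (hn _) (hn _)
  have h3 : ∀ (j : Fin d) (a : Fin (d + 2)), 3 ≤ a.val →
      Rch (brG d) ((∅ : Finset (Option (Fin d × Fin (d + 2)))) :
      Set (Option (Fin d × Fin (d + 2)))) (some (j, a)) none := by
    intro j a ha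
    refine Rch.trans (Rch.single ?_ (hn _) (hn _)) (h0 j)
    rw [brG_adj]
    simp only [brAdj, bdp]
    refine ⟨trivial, ?_⟩
    omega
  rintro (_ | ⟨j, a⟩) _
  · exact Rch.refl _
  · by_cases ha : 3 ≤ a.val
    · exact h3 j a ha
    · by_cases ha0 : a.val = 0
      · have : a = ⟨0, by omega⟩ := Fin.ext ha0
        rw [this]
        exact h0 j
      · refine Rch.trans (Rch.single ?_ (hn _) (hn _)) (h3 j ⟨3, by omega⟩ (by simp))
        rw [brG_adj]
        simp only [brAdj, bdp]
        refine ⟨trivial, ?_⟩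
        omega

theorem br_no_cycle {d : ℕ} {u : Option (Fin d × Fin (d + 2))} (c : (brG d).Walk u u)
    (hc : c.IsCycle) : none ∉ c.support := by
  intro hmem
  have h2 := hc.ncard_neighborSet_toSubgraph_eq_two hmem
  rw [Set.ncard_eq_two] at h2
  obtain ⟨x, y, hxy, hN⟩ := h2
  have hx : c.toSubgraph.Adj none x := by
    have : x ∈ c.toSubgraph.neighborSet none := by rw [hN]; simp
    exact this
  have hy : c.toSubgraph.Adj none y := by
    have : y ∈ c.toSubgraph.neighborSet none := by rw [hN]; simp
    exact this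
  have hx' : (brG d).Adj none x := hx.adj_sub
  have hy' : (brG d).Adj none y := hy.adj_sub
  rcases x with _ | ⟨i, a⟩
  · exact hx'
  rcases y with _ | ⟨j, b⟩
  · exact hy'
  have ha : a.val = 0 := hx'
  have hb : b.val = 0 := hy'
  have hij : i ≠ j := by
    rintro rfl
    apply hxy
    have : a = b := Fin.ext (by rw [ha, hb])
    rw [this]
  let p : (brG d).Walk (some (i, a)) (some (j, b)) :=
    Walk.cons hx'.symm (Walk.cons hy' Walk.nil)
  have hp : p.IsPath := by
    rw [Walk.isPath_def]
    simp only [p, Walk.support_cons, Walk.support_nil]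
    simp [hij]
  refine not_closes p hp {q | ∃ a, q = some (i, a)} ⟨a, rfl⟩ ?_ ?_ ⟨u, c, hc, ?_⟩
  · rintro ⟨a', h⟩
    simp only [Option.some.injEq, Prod.mk.injEq] at h
    exact hij h.1.symm
  · rintro x ⟨a', rfl⟩ y hy2 hadj
    rcases y with _ | ⟨j', b'⟩
    · exact ⟨1, by omega, by simp [p], rfl⟩
    · exfalso
      apply hy2
      have h1 : i = j' := hadj.1
      exact ⟨b', by rw [h1]⟩
  · rw [Walk.toSubgraph_le_iff (not_nil_of_pos p (by simp [p]))]
    intro e he
    have he2 : e ∈ p.edges := he
    simp only [p, Walk.edges_cons, Walk.edges_nil, List.mem_cons, List.not_mem_nil,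
      or_false] at he2
    rcases he2 with rfl | rfl
    · exact hx.symm
    · exact hy

theorem bridge_bad {d ℓ : ℕ} (hd : 3 ≤ d) (hodd : Odd d) (hl : ℓ ≤ 1) : ℓ ∉ S d 1 := by
  intro hS
  have key : ∀ (b : Option (Fin d × Fin (d + 2))) (p : (brG d).Walk none b), ¬ Closes p := by
    rintro b p ⟨u, c, hc, hle⟩
    apply br_no_cycle c hc
    rw [← Walk.mem_verts_toSubgraph]
    exact hle.1 (Walk.start_mem_verts_toSubgraph p)
  have : ℓ = 0 ∨ ℓ = 1 := by omega
  rcases this with rfl | rfl
  · exact key none Walk.nil (hS _ (brG d) (brG_degree hd hodd) (brG_kconn hd) _ _ Walk.nil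
      Walk.IsPath.nil rfl)
  · have hadj : (brG d).Adj none (some (⟨0, by omega⟩, ⟨0, by omega⟩)) := rfl
    exact key _ hadj.toWalk (hS _ (brG d) (brG_degree hd hodd) (brG_kconn hd) _ _ hadj.toWalk
      (Walk.IsPath.of_adj hadj) rfl)

end Pool.Agent.H568.PC
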