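import Pool.Agent.H568.PC.Compl

/-! The Cartesian product of a long cycle with a complete graph. -/

set_option linter.all false

namespace Pool.Agent.H568.PC

open SimpleGraph

def caG (m s : ℕ) (hm : 3 ≤ m) : SimpleGraph (Fin m × Fin s) where
  Adj p q := (p.1.val = q.1.val ∧ p.2.val ≠ q.2.val) ∨
    (p.2.val = q.2.val ∧ cyc m p.1.val q.1.val)
  symm := ⟨by
    intro p q h
    unfold cyc at *
    omega⟩
  loopless := ⟨by
    intro p h
    unfold cyc at *
    omega⟩

theorem caG_adj {m s : ℕ} {hm : 3 ≤ m} (p q : Fin m × Fin s) : (caG m s hm).Adj p q ↔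
    ((p.1.val = q.1.val ∧ p.2.val ≠ q.2.val) ∨ (p.2.val = q.2.val ∧ cyc m p.1.val q.1.val)) :=
  Iff.rfl

theorem sc_lt {m x : ℕ} (h : x < m) : sc m x < m := by unfold sc; split_ifs <;> omega

theorem pd_lt {m x : ℕ} (h : x < m) : pd m x < m := by unfold pd; split_ifs <;> omega

theorem caG_degree {m s : ℕ} (hm : 3 ≤ m) (hs : 1 ≤ s) (p : Fin m × Fin s) :
    ((caG m s hm).neighborSet p).ncard = s + 1 := by
  obtain ⟨x, c⟩ := p
  have h : (caG m s hm).neighborSet (x, c) = (fun e => (x, e)) '' ({c}ᶜ : Set (Fin s)) ∪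
      {(⟨sc m x.val, sc_lt x.2⟩, c), (⟨pd m x.val, pd_lt x.2⟩, c)} := by
    ext ⟨y, e⟩
    simp only [mem_neighborSet, caG_adj, Set.mem_union, Set.mem_image, Set.mem_compl_iff,
      Set.mem_insert_iff, Set.mem_singleton_iff, Prod.mk.injEq, Fin.ext_iff]
    have hx := x.2
    have hy := y.2
    constructor
    · rintro (⟨h1, h2⟩ | ⟨h1, h2⟩)
      · exact Or.inl ⟨e, fun h => h2 h.symm, h1, rfl⟩
      · right
        unfold cyc at h2
        unfold sc pd
        split_ifs <;> (first | omega | contradiction | (simp only [false_or, or_false, false_and, and_false, true_and, and_true, not_false_eq_true, or_self, not_true_eq_false, ne_eq] at *; omega) | (simp at *; done) | (simp at *; omega))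
    · rintro (⟨e', h1, h2, h3⟩ | ⟨h1, h2⟩ | ⟨h1, h2⟩)
      · left
        exact ⟨h2, fun h => h1 (by rw [h3, h])⟩
      · right
        refine ⟨h2.symm, ?_⟩
        unfold sc at h1
        unfold cyc
        split_ifs at h1 <;> (first | omega | contradiction | (simp only [false_or, or_false, false_and, and_false, true_and, and_true, not_false_eq_true, or_self, not_true_eq_false, ne_eq] at *; omega) | (simp at *; done) | (simp at *; omega))
      · right
        refine ⟨h2.symm, ?_⟩
        unfold pd at h1
        unfold cyc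
        split_ifs at h1 <;> (first | omega | contradiction | (simp only [false_or, or_false, false_and, and_false, true_and, and_true, not_false_eq_true, or_self, not_true_eq_false, ne_eq] at *; omega) | (simp at *; done) | (simp at *; omega))
  rw [h, Set.ncard_union_eq]
  · rw [Set.ncard_image_of_injective, Set.ncard_compl, Set.ncard_singleton, Nat.card_fin,
      Set.ncard_pair]
    · omega
    · intro h
      simp only [Prod.mk.injEq, Fin.ext_iff] at h
      have h1 := h.1
      have := x.2
      unfold sc pd at h1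
      split_ifs at h1 <;> omega
    · intro a b hab
      simpa using hab
  · rw [Set.disjoint_left]
    rintro ⟨y, e⟩ h1 h2
    simp only [Set.mem_image, Set.mem_compl_iff, Set.mem_singleton_iff, Prod.mk.injEq] at h1
    obtain ⟨e', h3, _, h4⟩ := h1
    simp only [Set.mem_insert_iff, Set.mem_singleton_iff, Prod.mk.injEq] at h2
    rcases h2 with ⟨_, h2⟩ | ⟨_, h2⟩
    · exact h3 (h4.trans h2)
    · exact h3 (h4.trans h2)

theorem caG_kconn {m s : ℕ} (hm : 3 ≤ m) (hs : 2 ≤ s) : KConn (s + 1) (caG m s hm) := by
  classical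
  right
  refine ⟨?_, ?_⟩
  · rw [Fintype.card_prod, Fintype.card_fin, Fintype.card_fin]
    nlinarith
  intro X hX
  -- same column
  have hcol : ∀ (x : Fin m) (c e : Fin s), (x, c) ∉ X → (x, e) ∉ X →
      Rch (caG m s hm) (X : Set (Fin m × Fin s)) (x, c) (x, e) := by
    intro x c e h1 h2
    by_cases h : c = e
    · subst h
      exact Rch.refl _
    · exact Rch.single (Or.inl ⟨rfl, fun h3 => h (Fin.ext h3)⟩) h1 h2
  by_cases hL : ∀ x : Fin m, ∃ c : Fin s, (x, c) ∉ X ∧ (⟨sc m x.val, sc_lt x.2⟩, c) ∉ X
  · obtain ⟨c0, hc0, _⟩ := hL ⟨0, by omega⟩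
    refine connected_of_root (⟨0, by omega⟩, c0) hc0 ?_
    have key : ∀ i : ℕ, ∀ (hi : i < m) (c : Fin s), (⟨i, hi⟩, c) ∉ X →
        Rch (caG m s hm) (X : Set (Fin m × Fin s)) (⟨i, hi⟩, c) (⟨0, by omega⟩, c0) := by
      intro i
      induction i with
      | zero =>
        intro hi c hc
        exact hcol _ _ _ hc hc0
      | succ i ih =>
        intro hi c hc
        obtain ⟨c', h1, h2⟩ := hL ⟨i, by omega⟩
        have h3 : (⟨sc m i, sc_lt (by omega)⟩ : Fin m) = ⟨i + 1, hi⟩ := by
          ext
          show sc m i = i + 1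
          unfold sc
          split_ifs <;> omega
        rw [h3] at h2
        refine (hcol _ _ _ hc h2).trans (Rch.trans (Rch.single ?_ h2 h1) (ih (by omega) c' h1))
        exact Or.inr ⟨rfl, Or.inr (Or.inl rfl)⟩
    rintro ⟨x, c⟩ hx
    exact key x.val x.2 c hx
  · push Not at hL
    obtain ⟨x0, hx0⟩ := hL
    have hx0m := x0.2
    have hfree : ∀ (y : Fin m) (c : Fin s), y.val ≠ x0.val → y.val ≠ sc m x0.val →
        (y, c) ∉ X := by
      intro y c h1 h2 hyc
      let g : Fin s → Fin m × Fin s := fun e => if (x0, e) ∈ X then (x0, e)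
        else (⟨sc m x0.val, sc_lt x0.2⟩, e)
      have hg2 : ∀ e, (g e).2 = e := by
        intro e
        simp only [g]
        split_ifs <;> rfl
      have hginj : Function.Injective g := by
        intro a b hab
        rw [← hg2 a, ← hg2 b, hab]
      have hgX : Finset.univ.image g ⊆ X := by
        intro p hp
        rw [Finset.mem_image] at hp
        obtain ⟨e, _, rfl⟩ := hp
        simp only [g]
        split_ifs with h3
        · exact h3
        · exact hx0 e h3
      have hnot : (y, c) ∉ Finset.univ.image g := by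
        intro hp
        rw [Finset.mem_image] at hp
        obtain ⟨e, _, he⟩ := hp
        simp only [g] at he
        split_ifs at he
        · rw [Prod.mk.injEq] at he
          exact h1 (by rw [he.1])
        · rw [Prod.mk.injEq] at he
          exact h2 (by rw [← he.1])
      have h3 : insert (y, c) (Finset.univ.image g) ⊆ X :=
        Finset.insert_subset hyc hgX
      have h4 := Finset.card_le_card h3
      rw [Finset.card_insert_of_notMem hnot, Finset.card_image_of_injective _ hginj] at h4
      simp at h4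
      omega
    have hmod : ∀ n, (n + 1) % m = sc m (n % m) := by
      intro n
      have h1 : n % m < m := Nat.mod_lt _ (by omega)
      unfold sc
      rw [Nat.add_mod, Nat.mod_eq_of_lt (show 1 < m by omega)]
      split_ifs with h2
      · rw [h2, Nat.mod_self]
      · rw [Nat.mod_eq_of_lt (by omega)]
    have hfree2 : ∀ i : ℕ, i + 3 ≤ m → ∀ c : Fin s,
        ((⟨(x0.val + 2 + i) % m, Nat.mod_lt _ (by omega)⟩ : Fin m), c) ∉ X := by
      intro i hi c
      apply hfree
      · show (x0.val + 2 + i) % m ≠ x0.val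
        rcases Nat.lt_or_ge (x0.val + 2 + i) m with h | h
        · rw [Nat.mod_eq_of_lt h]
          omega
        · rw [Nat.mod_eq_sub_mod h, Nat.mod_eq_of_lt (by omega)]
          omega
      · show (x0.val + 2 + i) % m ≠ sc m x0.val
        unfold sc
        rcases Nat.lt_or_ge (x0.val + 2 + i) m with h | h
        · rw [Nat.mod_eq_of_lt h]
          split_ifs <;> omega
        · rw [Nat.mod_eq_sub_mod h, Nat.mod_eq_of_lt (by omega)]
          split_ifs <;> omega
    have hcycs : ∀ x : ℕ, x < m → cyc m (sc m x) x := by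
      intro x hx
      unfold cyc sc
      split_ifs <;> (first | omega | contradiction | (simp only [false_or, or_false, false_and, and_false, true_and, and_true, not_false_eq_true, or_self, not_true_eq_false, ne_eq] at *; omega) | (simp at *; done) | (simp at *; omega))
    refine connected_of_root ((⟨(x0.val + 2 + 0) % m, Nat.mod_lt _ (by omega)⟩ : Fin m),
      (⟨0, by omega⟩ : Fin s)) (hfree2 0 (by omega) _) ?_
    have key : ∀ i : ℕ, i + 3 ≤ m → ∀ c : Fin s,
        Rch (caG m s hm) (X : Set (Fin m × Fin s))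
          ((⟨(x0.val + 2 + i) % m, Nat.mod_lt _ (by omega)⟩ : Fin m), c)
          ((⟨(x0.val + 2 + 0) % m, Nat.mod_lt _ (by omega)⟩ : Fin m),
            (⟨0, by omega⟩ : Fin s)) := by
      intro i
      induction i with
      | zero =>
        intro hi c
        exact hcol _ _ _ (hfree2 0 hi c) (hfree2 0 hi _)
      | succ i ih =>
        intro hi c
        refine Rch.trans (Rch.single ?_ (hfree2 (i + 1) hi c) (hfree2 i (by omega) c))
          (ih (by omega) c)
        rw [caG_adj]
        right
        refine ⟨rfl, ?_⟩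
        show cyc m ((x0.val + 2 + i + 1) % m) ((x0.val + 2 + i) % m)
        rw [hmod]
        exact hcycs _ (Nat.mod_lt _ (by omega))
    rintro ⟨y, c⟩ hy
    have hym := y.2
    by_cases h1 : y.val = x0.val
    · -- step backwards
      have h2 : sc m ((x0.val + 2 + (m - 3)) % m) = x0.val := by
        rw [← hmod, show x0.val + 2 + (m - 3) + 1 = x0.val + m by omega, Nat.add_mod_right,
          Nat.mod_eq_of_lt hx0m]
      refine Rch.trans (Rch.single ?_ hy (hfree2 (m - 3) (by omega) c)) (key (m - 3) (by omega) c)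
      rw [caG_adj]
      right
      refine ⟨rfl, ?_⟩
      show cyc m y.val ((x0.val + 2 + (m - 3)) % m)
      have h3 := hcycs ((x0.val + 2 + (m - 3)) % m) (Nat.mod_lt _ (by omega))
      rw [h2] at h3
      rw [h1]
      exact h3
    · by_cases h2 : y.val = sc m x0.val
      · have h3 : (x0.val + 2 + 0) % m = sc m y.val := by
          rw [h2, show x0.val + 2 + 0 = (x0.val + 1) + 1 by omega, hmod, hmod,
            Nat.mod_eq_of_lt hx0m]
        refine Rch.trans (Rch.single ?_ hy (hfree2 0 (by omega) c)) (key 0 (by omega) c)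
        rw [caG_adj]
        right
        refine ⟨rfl, ?_⟩
        show cyc m y.val ((x0.val + 2 + 0) % m)
        rw [h3]
        have := hcycs y.val hym
        unfold cyc at this ⊢
        omega
      · have h3 : ∃ i, i + 3 ≤ m ∧ (x0.val + 2 + i) % m = y.val := by
          rcases Nat.lt_or_ge y.val x0.val with h | h
          · refine ⟨y.val + m - x0.val - 2, ?_, ?_⟩
            · unfold sc at h2
              split_ifs at h2 <;> omega
            · have : x0.val + 2 + (y.val + m - x0.val - 2) = y.val + m := by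
                unfold sc at h2
                split_ifs at h2 <;> omega
              rw [this, Nat.add_mod_right, Nat.mod_eq_of_lt hym]
          · have h4 : x0.val + 2 ≤ y.val := by
              unfold sc at h2
              split_ifs at h2 <;> omega
            refine ⟨y.val - x0.val - 2, by omega, ?_⟩
            rw [show x0.val + 2 + (y.val - x0.val - 2) = y.val by omega, Nat.mod_eq_of_lt hym]
        obtain ⟨i, hi, h4⟩ := h3
        have h5 := key i hi c
        have h6 : (⟨(x0.val + 2 + i) % m, Nat.mod_lt _ (by omega)⟩ : Fin m) = y :=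
          Fin.ext h4
        rw [h6] at h5
        exact h5

def fx (s i : ℕ) : ℕ := if i = 0 then 1 else if i ≤ 2 then 0 else if i ≤ s + 1 then 1 else
  if i ≤ s + 3 then 2 else i - s - 1

def fc (s i : ℕ) : ℕ := if i ≤ 1 then 0 else if i = 2 then 1 else if i ≤ s + 1 then i - 2 else
  if i = s + 2 then s - 1 else 0

theorem fval {s : ℕ} (hs : 2 ≤ s) (i : ℕ) :
    (i = 0 ∧ fx s i = 1 ∧ fc s i = 0) ∨ (i = 1 ∧ fx s i = 0 ∧ fc s i = 0) ∨
    (i = 2 ∧ fx s i = 0 ∧ fc s i = 1) ∨ (3 ≤ i ∧ i ≤ s + 1 ∧ fx s i = 1 ∧ fc s i = i - 2) ∨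
    (i = s + 2 ∧ fx s i = 2 ∧ fc s i = s - 1) ∨
    (s + 3 ≤ i ∧ fx s i = i - s - 1 ∧ fc s i = 0) := by
  have hcase : i = 0 ∨ i = 1 ∨ i = 2 ∨ (3 ≤ i ∧ i ≤ s + 1) ∨ i = s + 2 ∨ s + 3 ≤ i := by
    omega
  rcases hcase with rfl | rfl | rfl | h | rfl | h
  · simp [fx, fc]
  · simp [fx, fc]
  · simp [fx, fc]
  · right; right; right; left
    refine ⟨h.1, h.2, ?_, ?_⟩
    · unfold fx
      rw [if_neg (by omega), if_neg (by omega), if_pos (by omega)]
    · unfold fc
      rw [if_neg (by omega), if_neg (by omega), if_pos (by omega)]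
  · right; right; right; right; left
    refine ⟨rfl, ?_, ?_⟩
    · unfold fx
      rw [if_neg (by omega), if_neg (by omega), if_neg (by omega), if_pos (by omega)]
    · unfold fc
      rw [if_neg (by omega), if_neg (by omega), if_neg (by omega), if_pos (by omega)]
  · right; right; right; right; right
    refine ⟨h, ?_, ?_⟩
    · unfold fx
      rw [if_neg (by omega), if_neg (by omega), if_neg (by omega)]
      split_ifs <;> omega
    · unfold fc
      rw [if_neg (by omega), if_neg (by omega), if_neg (by omega), if_neg (by omega)]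

theorem ca_bad {s ℓ : ℕ} (hs : 2 ≤ s) (hl : s + 4 ≤ ℓ) : ℓ ∉ S (s + 1) (s + 1) := by
  intro hS
  have hm : 3 ≤ ℓ + 5 := by omega
  have e1 : ∀ j, j ≤ ℓ → min (fx s j) (ℓ + 4) = fx s j := by
    intro j hj
    have := fval hs j
    omega
  have e2 : ∀ j, min (fc s j) (s - 1) = fc s j := by
    intro j
    have := fval hs j
    omega
  obtain ⟨p, hp, hpl, hpg⟩ := exists_walk_of_fun (G := caG (ℓ + 5) s hm)
    (fun i => (⟨min (fx s i) (ℓ + 4), by omega⟩, ⟨min (fc s i) (s - 1), by omega⟩)) ℓ (by
      intro i hi
      rw [caG_adj]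
      show (min (fx s i) (ℓ + 4) = min (fx s (i + 1)) (ℓ + 4) ∧
        min (fc s i) (s - 1) ≠ min (fc s (i + 1)) (s - 1)) ∨
        (min (fc s i) (s - 1) = min (fc s (i + 1)) (s - 1) ∧
        cyc (ℓ + 5) (min (fx s i) (ℓ + 4)) (min (fx s (i + 1)) (ℓ + 4)))
      rw [e1 i hi.le, e1 (i + 1) hi, e2, e2]
      have h1 := fval hs i
      have h2 := fval hs (i + 1)
      unfold cyc
      rcases h1 with h1 | h1 | h1 | h1 | h1 | h1 <;>
      rcases h2 with h2 | h2 | h2 | h2 | h2 | h2 <;> omega) (by
      intro i hi j hj hij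
      simp only [Prod.mk.injEq, Fin.mk.injEq] at hij
      rw [e1 i hi, e1 j hj, e2, e2] at hij
      obtain ⟨h3, h4⟩ := hij
      have h1 := fval hs i
      have h2 := fval hs j
      rcases h1 with h1 | h1 | h1 | h1 | h1 | h1 <;>
      rcases h2 with h2 | h2 | h2 | h2 | h2 | h2 <;> omega)
  refine not_closes p hp {q | q.1.val = 1 ∧ q.2.val = 0} ?_ ?_ ?_
    (hS _ (caG (ℓ + 5) s hm) (caG_degree hm (by omega)) (caG_kconn hm hs) _ _ p hp hpl)
  · show min (fx s 0) (ℓ + 4) = 1 ∧ min (fc s 0) (s - 1) = 0
    rw [e1 0 (by omega), e2]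
    simp [fx, fc]
  · rintro ⟨h1, _⟩
    replace h1 : min (fx s ℓ) (ℓ + 4) = 1 := h1
    rw [e1 ℓ le_rfl] at h1
    unfold fx at h1
    split_ifs at h1 <;> omega
  · rintro ⟨x, c⟩ ⟨hx, hc⟩ ⟨y, e⟩ hy hxy
    simp only at hx hc
    rw [caG_adj] at hxy
    simp only at hxy
    rw [hx, hc] at hxy
    have he := e.2
    have hy2 := y.2
    have fin : ∀ i, 0 < i → i < ℓ → fx s i = y.val → fc s i = e.val →
        ∃ i, 0 < i ∧ i < p.length ∧ p.getVert i = (y, e) := by
      intro i h0 h1 h2 h3
      refine ⟨i, h0, by omega, ?_⟩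
      rw [hpg i h1.le]
      simp only [Prod.mk.injEq, Fin.ext_iff]
      rw [e1 i h1.le, e2]
      exact ⟨h2, h3⟩
    rcases hxy with ⟨h1, h2⟩ | ⟨h1, h2⟩
    · apply fin (e.val + 2) (by omega) (by omega)
      · unfold fx
        split_ifs <;> first | omega | contradiction
      · unfold fc
        split_ifs <;> first | omega | contradiction
    · unfold cyc at h2
      have h3 : y.val = 2 ∨ y.val = 0 := by omega
      rcases h3 with h3 | h3
      · apply fin (s + 3) (by omega) (by omega)
        · unfold fx
          split_ifs <;> first | omega | contradiction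
        · unfold fc
          split_ifs <;> first | omega | contradiction
      · apply fin 1 (by omega) (by omega)
        · unfold fx
          split_ifs <;> first | omega | contradiction
        · unfold fc
          split_ifs <;> first | omega | contradiction

end Pool.Agent.H568.PC
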