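import Pool.Agent.H568.PC.Base

/-! The complement of the cycle on `d+3` vertices: `d`-regular and `d`-connected. -/

set_option linter.all false

namespace Pool.Agent.H568.PC

open SimpleGraph

/-- cyclically consecutive -/
def cyc (n x y : ℕ) : Prop := x + 1 = y ∨ y + 1 = x ∨ (x = 0 ∧ y + 1 = n) ∨ (y = 0 ∧ x + 1 = n)

def coG (n : ℕ) : SimpleGraph (Fin n) where
  Adj x y := x.val ≠ y.val ∧ ¬ cyc n x.val y.val
  symm := ⟨by
    intro x y h
    unfold cyc at *
    omega⟩
  loopless := ⟨by
    intro x h
    exact h.1 rfl⟩

theorem coG_adj {n : ℕ} (x y : Fin n) : (coG n).Adj x y ↔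
    (x.val ≠ y.val ∧ ¬ cyc n x.val y.val) := Iff.rfl

def sc (n x : ℕ) : ℕ := if x + 1 = n then 0 else x + 1

def pd (n x : ℕ) : ℕ := if x = 0 then n - 1 else x - 1

theorem coG_degree {d : ℕ} (x : Fin (d + 3)) : ((coG (d + 3)).neighborSet x).ncard = d := by
  have hs : sc (d + 3) x.val < d + 3 := by unfold sc; split_ifs <;> (first | omega | contradiction | (simp only [false_or, or_false, false_and, and_false, true_and, and_true, not_false_eq_true, or_self, not_true_eq_false, ne_eq] at *; omega) | (simp at *; done) | (simp at *; omega))
  have hp : pd (d + 3) x.val < d + 3 := by unfold pd; split_ifs <;> (first | omega | contradiction | (simp only [false_or, or_false, false_and, and_false, true_and, and_true, not_false_eq_true, or_self, not_true_eq_false, ne_eq] at *; omega) | (simp at *; done) | (simp at *; omega))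
  have h : (coG (d + 3)).neighborSet x = ({x, ⟨sc (d + 3) x.val, hs⟩, ⟨pd (d + 3) x.val, hp⟩} :
      Set (Fin (d + 3)))ᶜ := by
    ext y
    simp only [mem_neighborSet, coG_adj, Set.mem_compl_iff, Set.mem_insert_iff,
      Set.mem_singleton_iff, Fin.ext_iff, cyc, sc, pd]
    have := y.2
    have := x.2
    split_ifs <;> (first | omega | contradiction | (simp only [false_or, or_false, false_and, and_false, true_and, and_true, not_false_eq_true, or_self, not_true_eq_false, ne_eq] at *; omega) | (simp at *; done) | (simp at *; omega))
  rw [h, Set.ncard_compl, Nat.card_fin]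
  have : ({x, ⟨sc (d + 3) x.val, hs⟩, ⟨pd (d + 3) x.val, hp⟩} :
      Set (Fin (d + 3))).ncard = 3 := by
    rw [Set.ncard_eq_three]
    refine ⟨_, _, _, ?_, ?_, ?_, rfl⟩
    · intro h
      rw [Fin.ext_iff] at h
      simp only [sc] at h
      split_ifs at h <;> (first | omega | contradiction | (simp only [false_or, or_false, false_and, and_false, true_and, and_true, not_false_eq_true, or_self, not_true_eq_false, ne_eq] at *; omega) | (simp at *; done) | (simp at *; omega))
    · intro h
      rw [Fin.ext_iff] at h
      simp only [pd] at h
      split_ifs at h <;> (first | omega | contradiction | (simp only [false_or, or_false, false_and, and_false, true_and, and_true, not_false_eq_true, or_self, not_true_eq_false, ne_eq] at *; omega) | (simp at *; done) | (simp at *; omega))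
    · intro h
      rw [Fin.ext_iff] at h
      simp only [pd, sc] at h
      split_ifs at h <;> (first | omega | contradiction | (simp only [false_or, or_false, false_and, and_false, true_and, and_true, not_false_eq_true, or_self, not_true_eq_false, ne_eq] at *; omega) | (simp at *; done) | (simp at *; omega))
  rw [this]
  omega

theorem coG_kconn {d : ℕ} (hd : 3 ≤ d) : KConn d (coG (d + 3)) := by
  classical
  right
  refine ⟨by simp, ?_⟩
  intro X hX
  have hcard : (Finset.univ : Finset (Fin (d + 3))).card = d + 3 := by simp
  have hstep : ∀ a b : Fin (d + 3), a ∉ X → b ∉ X → b.val = sc (d + 3) a.val →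
      Rch (coG (d + 3)) (X : Set (Fin (d + 3))) a b := by
    intro a b ha hb hab
    have hq : sc (d + 3) b.val < d + 3 := by unfold sc; split_ifs <;> (first | omega | contradiction | (simp only [false_or, or_false, false_and, and_false, true_and, and_true, not_false_eq_true, or_self, not_true_eq_false, ne_eq] at *; omega) | (simp at *; done) | (simp at *; omega))
    have hp : pd (d + 3) a.val < d + 3 := by unfold pd; split_ifs <;> (first | omega | contradiction | (simp only [false_or, or_false, false_and, and_false, true_and, and_true, not_false_eq_true, or_self, not_true_eq_false, ne_eq] at *; omega) | (simp at *; done) | (simp at *; omega))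
    have ha2 := a.2
    have hb2 := b.2
    by_cases hc : ∃ c : Fin (d + 3), c ∉ X ∧ c ≠ a ∧ c ≠ b ∧ c.val ≠ sc (d + 3) b.val ∧
        c.val ≠ pd (d + 3) a.val
    · obtain ⟨c, hcX, h1, h2, h3, h4⟩ := hc
      have hc2 := c.2
      rw [ne_eq, Fin.ext_iff] at h1 h2
      refine Rch.trans (y := c) (Rch.single ?_ ha hcX) (Rch.single ?_ hcX hb)
      · rw [coG_adj]
        unfold sc at hab h3
        unfold pd at h4
        unfold cyc
        split_ifs at * <;> (first | omega | contradiction | (simp only [false_or, or_false, false_and, and_false, true_and, and_true, not_false_eq_true, or_self, not_true_eq_false, ne_eq] at *; omega) | (simp at *; done) | (simp at *; omega))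
      · rw [coG_adj]
        unfold sc at hab h3
        unfold pd at h4
        unfold cyc
        split_ifs at * <;> (first | omega | contradiction | (simp only [false_or, or_false, false_and, and_false, true_and, and_true, not_false_eq_true, or_self, not_true_eq_false, ne_eq] at *; omega) | (simp at *; done) | (simp at *; omega))
    · push Not at hc
      have hsub : (Finset.univ : Finset (Fin (d + 3))) ⊆
          insert a (insert b (insert (⟨sc (d + 3) b.val, hq⟩ : Fin (d + 3))
            (insert (⟨pd (d + 3) a.val, hp⟩ : Fin (d + 3)) X))) := by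
        intro c _
        simp only [Finset.mem_insert]
        by_cases hcX : c ∈ X
        · tauto
        by_cases h1 : c = a
        · tauto
        by_cases h2 : c = b
        · tauto
        by_cases h3 : c.val = sc (d + 3) b.val
        · right; right; left
          exact Fin.ext h3
        · right; right; right; left
          exact Fin.ext (hc c hcX h1 h2 h3)
      have hqX : (⟨sc (d + 3) b.val, hq⟩ : Fin (d + 3)) ∉ X := by
        intro hmem
        rw [Finset.insert_eq_of_mem (a := (⟨sc (d + 3) b.val, hq⟩ : Fin (d + 3)))
          (Finset.mem_insert_of_mem hmem)] at hsub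
        have h1 := Finset.card_le_card hsub
        have h2 := Finset.card_insert_le a (insert b (insert (⟨pd (d + 3) a.val, hp⟩ : Fin (d + 3)) X))
        have h3 := Finset.card_insert_le b (insert (⟨pd (d + 3) a.val, hp⟩ : Fin (d + 3)) X)
        have h4 := Finset.card_insert_le (⟨pd (d + 3) a.val, hp⟩ : Fin (d + 3)) X
        omega
      have hpX : (⟨pd (d + 3) a.val, hp⟩ : Fin (d + 3)) ∉ X := by
        intro hmem
        rw [Finset.insert_eq_of_mem (a := (⟨pd (d + 3) a.val, hp⟩ : Fin (d + 3))) hmem] at hsub
        have h1 := Finset.card_le_card hsub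
        have h2 := Finset.card_insert_le a (insert b (insert (⟨sc (d + 3) b.val, hq⟩ : Fin (d + 3)) X))
        have h3 := Finset.card_insert_le b (insert (⟨sc (d + 3) b.val, hq⟩ : Fin (d + 3)) X)
        have h4 := Finset.card_insert_le (⟨sc (d + 3) b.val, hq⟩ : Fin (d + 3)) X
        omega
      refine Rch.trans (y := ⟨sc (d + 3) b.val, hq⟩) (Rch.single ?_ ha hqX)
        (Rch.trans (y := ⟨pd (d + 3) a.val, hp⟩) (Rch.single ?_ hqX hpX)
          (Rch.single ?_ hpX hb))
      · rw [coG_adj]
        unfold cyc
        simp only [sc] at hab ⊢
        split_ifs at * <;> (first | omega | contradiction | (simp only [false_or, or_false, false_and, and_false, true_and, and_true, not_false_eq_true, or_self, not_true_eq_false, ne_eq] at *; omega) | (simp at *; done) | (simp at *; omega))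
      · rw [coG_adj]
        unfold cyc
        simp only [sc, pd] at hab ⊢
        split_ifs at * <;> (first | omega | contradiction | (simp only [false_or, or_false, false_and, and_false, true_and, and_true, not_false_eq_true, or_self, not_true_eq_false, ne_eq] at *; omega) | (simp at *; done) | (simp at *; omega))
      · rw [coG_adj]
        unfold cyc
        simp only [sc, pd] at hab ⊢
        split_ifs at * <;> (first | omega | contradiction | (simp only [false_or, or_false, false_and, and_false, true_and, and_true, not_false_eq_true, or_self, not_true_eq_false, ne_eq] at *; omega) | (simp at *; done) | (simp at *; omega))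
  obtain ⟨r, _, hr⟩ : ∃ r ∈ (Finset.univ : Finset (Fin (d + 3))), r ∉ X := by
    apply Finset.exists_mem_notMem_of_card_lt_card
    omega
  refine connected_of_root r hr ?_
  intro x hx
  by_cases h1 : x = r
  · subst h1
    exact Rch.refl _
  by_cases h2 : cyc (d + 3) x.val r.val
  · have hx2 := x.2
    have hr2 := r.2
    by_cases h3 : r.val = sc (d + 3) x.val
    · exact hstep x r hx hr h3
    · refine (hstep r x hr hx ?_).symm
      unfold cyc at h2
      unfold sc at h3 ⊢
      split_ifs at * <;> (first | omega | contradiction | (simp only [false_or, or_false, false_and, and_false, true_and, and_true, not_false_eq_true, or_self, not_true_eq_false, ne_eq] at *; omega) | (simp at *; done) | (simp at *; omega))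
  · exact Rch.single ⟨fun h => h1 (Fin.ext h), h2⟩ hx hr

/-- the bad path in the complement of the cycle -/
def cofv (d i : ℕ) : ℕ :=
  if i = 0 then 0 else if i ≤ d / 2 then 2 * i + 1 else if i ≤ d then 2 * (i - d / 2)
  else if i = d + 1 then 1 else d + 2

theorem cofv_lt (d i : ℕ) : cofv d i < d + 3 := by
  unfold cofv
  split_ifs <;> (first | omega | contradiction | (simp only [false_or, or_false, false_and, and_false, true_and, and_true, not_false_eq_true, or_self, not_true_eq_false, ne_eq] at *; omega) | (simp at *; done) | (simp at *; omega))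

theorem co_bad {d ℓ : ℕ} (hd : 4 ≤ d) (hl : ℓ = d + 1 ∨ ℓ = d + 2) : ℓ ∉ S d d := by
  intro hS
  obtain ⟨p, hp, hpl, hpg⟩ := exists_walk_of_fun (G := coG (d + 3))
    (fun i => ⟨cofv d i, cofv_lt d i⟩) ℓ (by
      intro i hi
      rw [coG_adj]
      show cofv d i ≠ cofv d (i + 1) ∧ ¬ cyc (d + 3) (cofv d i) (cofv d (i + 1))
      unfold cofv cyc
      split_ifs <;> (first | omega | contradiction | (simp only [false_or, or_false, false_and, and_false, true_and, and_true, not_false_eq_true, or_self, not_true_eq_false, ne_eq] at *; omega) | (simp at *; done) | (simp at *; omega))) (by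
      intro i hi j hj hij
      rw [Fin.ext_iff] at hij
      simp only [cofv] at hij
      split_ifs at hij <;> (first | omega | contradiction | (simp only [false_or, or_false, false_and, and_false, true_and, and_true, not_false_eq_true, or_self, not_true_eq_false, ne_eq] at *; omega) | (simp at *; done) | (simp at *; omega)))
  refine not_closes p hp {⟨0, by omega⟩} ?_ ?_ ?_
    (hS _ (coG (d + 3)) coG_degree (coG_kconn (by omega)) _ _ p hp hpl)
  · rw [Set.mem_singleton_iff, Fin.ext_iff]
    simp [cofv]
  · rw [Set.mem_singleton_iff, Fin.ext_iff]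
    simp only [cofv]
    split_ifs <;> (first | omega | contradiction | (simp only [false_or, or_false, false_and, and_false, true_and, and_true, not_false_eq_true, or_self, not_true_eq_false, ne_eq] at *; omega) | (simp at *; done) | (simp at *; omega))
  · intro x hx y _ hxy
    rw [Set.mem_singleton_iff] at hx
    subst hx
    rw [coG_adj] at hxy
    unfold cyc at hxy
    simp only at hxy
    have hy := y.2
    have hne1 : y.val + 1 ≠ d + 3 := fun h => hxy.2 (Or.inr (Or.inr (Or.inl ⟨by trivial, h⟩)))
    have hne2 : y.val ≠ 1 := fun h => hxy.2 (Or.inl (by rw [h]))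
    have hne3 : y.val ≠ 0 := fun h => hxy.1 h.symm
    by_cases hpar : y.val % 2 = 1
    · refine ⟨(y.val - 1) / 2, by omega, by omega, ?_⟩
      rw [hpg _ (by omega), Fin.ext_iff]
      simp only [cofv]
      split_ifs <;> (first | omega | contradiction | (simp only [false_or, or_false, false_and, and_false, true_and, and_true, not_false_eq_true, or_self, not_true_eq_false, ne_eq] at *; omega) | (simp at *; done) | (simp at *; omega))
    · refine ⟨d / 2 + y.val / 2, by omega, by omega, ?_⟩
      rw [hpg _ (by omega), Fin.ext_iff]
      simp only [cofv]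
      split_ifs <;> (first | omega | contradiction | (simp only [false_or, or_false, false_and, and_false, true_and, and_true, not_false_eq_true, or_self, not_true_eq_false, ne_eq] at *; omega) | (simp at *; done) | (simp at *; omega))

theorem co_bad3 : 5 ∉ S 3 3 := by
  intro hS
  let f : ℕ → Fin 6 := fun i => if i = 0 then 0 else if i = 1 then 2 else if i = 2 then 4
    else if i = 3 then 1 else if i = 4 then 3 else 5
  obtain ⟨p, hp, hpl, hpg⟩ := exists_walk_of_fun (G := coG (3 + 3)) f 5 (by
      intro i hi
      rw [coG_adj]
      unfold cyc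
      have : i = 0 ∨ i = 1 ∨ i = 2 ∨ i = 3 ∨ i = 4 := by omega
      rcases this with rfl | rfl | rfl | rfl | rfl <;> simp [f]) (by
      intro i hi j hj hij
      have h1 : i = 0 ∨ i = 1 ∨ i = 2 ∨ i = 3 ∨ i = 4 ∨ i = 5 := by omega
      have h2 : j = 0 ∨ j = 1 ∨ j = 2 ∨ j = 3 ∨ j = 4 ∨ j = 5 := by omega
      rcases h1 with rfl | rfl | rfl | rfl | rfl | rfl <;>
      rcases h2 with rfl | rfl | rfl | rfl | rfl | rfl <;> simp [f] at hij ⊢)
  refine not_closes p hp {0} ?_ ?_ ?_
    (hS _ (coG (3 + 3)) coG_degree (coG_kconn (by omega)) _ _ p hp hpl)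
  · simp [f]
  · simp [f]
  · intro x hx y _ hxy
    rw [Set.mem_singleton_iff] at hx
    subst hx
    rw [coG_adj] at hxy
    unfold cyc at hxy
    have hy := y.2
    have : y = 2 ∨ y = 3 ∨ y = 4 := by
      simp only [Fin.ext_iff]
      simp at hxy
      have e2 : ((2 : Fin 6) : ℕ) = 2 := rfl
      have e3 : ((3 : Fin 6) : ℕ) = 3 := rfl
      have e4 : ((4 : Fin 6) : ℕ) = 4 := rfl
      rw [e2, e3, e4]
      omega
    rcases this with rfl | rfl | rfl
    · exact ⟨1, by omega, by omega, by rw [hpg 1 (by omega)]; simp [f]⟩
    · exact ⟨4, by omega, by omega, by rw [hpg 4 (by omega)]; simp [f]⟩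
    · exact ⟨2, by omega, by omega, by rw [hpg 2 (by omega)]; simp [f]⟩

end Pool.Agent.H568.PC
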