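import Pool.Agent.H568.PC.Base

/-! Membership results: which `ℓ` belong to `S d k`. -/

namespace Pool.Agent.H568.PC

open SimpleGraph

theorem S_mono {d k k' : ℕ} (h : k ≤ k') : S d k ⊆ S d k' := by
  intro ℓ hl V _ G hreg hc a b p hp hlen
  exact hl V G hreg (kconn_mono h hc) a b p hp hlen

theorem closes_of_le {V : Type} {G : SimpleGraph V} {a b a' b' : V} (p : G.Walk a b)
    (p' : G.Walk a' b') (hle : p.toSubgraph ≤ p'.toSubgraph) (h : Closes p') : Closes p := by
  obtain ⟨u, c, hc, hle'⟩ := h
  exact ⟨u, c, hc, hle.trans hle'⟩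

/-- closing a path by a return path -/
theorem closes_of_return {V : Type} {G : SimpleGraph V} {a b : V} (p : G.Walk a b)
    (hp : p.IsPath) (h2 : 2 ≤ p.length) (q : G.Walk b a) (hq : q.IsPath)
    (hdis : ∀ z ∈ q.support, ∀ i, 0 < i → i < p.length → z ≠ p.getVert i) : Closes p := by
  refine ⟨a, p.append q, hp.isCycle_append hq ?_ (Or.inl (by omega)), ?_⟩
  · intro z hz1 hz2
    have ha : a ∉ p.support.tail := by
      have := hp.support_nodup
      rw [← Walk.cons_tail_support] at this
      exact (List.nodup_cons.1 this).1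
    have hb : b ∉ q.support.tail := by
      have := hq.support_nodup
      rw [← Walk.cons_tail_support] at this
      exact (List.nodup_cons.1 this).1
    have hzp : z ∈ p.support := List.mem_of_mem_tail hz1
    have hzq : z ∈ q.support := List.mem_of_mem_tail hz2
    rw [Walk.mem_support_iff_exists_getVert] at hzp
    obtain ⟨i, hi, hil⟩ := hzp
    rcases Nat.eq_zero_or_pos i with h0 | h0
    · subst h0
      rw [Walk.getVert_zero] at hi
      exact ha (hi ▸ hz1)
    · rcases Nat.lt_or_ge i p.length with h1 | h1
      · exact hdis z hzq i h0 h1 hi.symm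
      · have : i = p.length := by omega
        rw [this, Walk.getVert_length] at hi
        exact hb (hi ▸ hz2)
  · rw [Walk.toSubgraph_append]
    exact le_sup_left

theorem two_nbrs {V : Type} [Fintype V] {G : SimpleGraph V} {v w : V}
    (h : 2 ≤ (G.neighborSet v).ncard) : ∃ w', G.Adj v w' ∧ w' ≠ w := by
  by_contra hcon
  push Not at hcon
  have : G.neighborSet v ⊆ {w} := by
    intro x hx
    exact hcon x hx
  have h1 := Set.ncard_le_ncard this (Set.toFinite _)
  rw [Set.ncard_singleton] at h1
  omega

theorem exists_nbr {V : Type} [Fintype V] {G : SimpleGraph V} {v : V}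
    (h : 1 ≤ (G.neighborSet v).ncard) : ∃ w, G.Adj v w := by
  by_contra hcon
  push Not at hcon
  have : G.neighborSet v = ∅ := by
    ext x
    simp only [mem_neighborSet, Set.mem_empty_iff_false, iff_false]
    exact hcon x
  rw [this, Set.ncard_empty] at h
  omega

/-- a path of length one extends to a path of length two -/
theorem extend_one {V : Type} [Fintype V] {G : SimpleGraph V}
    (hd : ∀ v, 2 ≤ (G.neighborSet v).ncard) {a b : V} (p : G.Walk a b) (hp : p.IsPath)
    (hl : p.length = 1) : ∃ (c : V) (p' : G.Walk a c), p'.IsPath ∧ p'.length = 2 ∧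
      p.toSubgraph ≤ p'.toSubgraph := by
  have hab : G.Adj a b := Walk.adj_of_length_eq_one hl
  obtain ⟨c, hc, hne⟩ := two_nbrs (w := a) (hd b)
  refine ⟨c, p.concat hc, hp.concat ?_ _, by rw [Walk.length_concat, hl], ?_⟩
  · rw [Walk.mem_support_iff_exists_getVert]
    rintro ⟨i, hi, hil⟩
    have : i = 0 ∨ i = 1 := by omega
    rcases this with h | h
    · subst h
      rw [Walk.getVert_zero] at hi
      exact hne hi.symm
    · subst h
      rw [← hl, Walk.getVert_length] at hi
      exact hc.ne hi
  · rw [Walk.concat_eq_append, Walk.toSubgraph_append]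
    exact le_sup_left

/-- a path of length zero extends to a path of length one -/
theorem extend_zero {V : Type} [Fintype V] {G : SimpleGraph V}
    (hd : ∀ v, 1 ≤ (G.neighborSet v).ncard) {a b : V} (p : G.Walk a b)
    (hl : p.length = 0) : ∃ (c : V) (p' : G.Walk a c), p'.IsPath ∧ p'.length = 1 ∧
      p.toSubgraph ≤ p'.toSubgraph := by
  obtain rfl : a = b := Walk.eq_of_length_eq_zero hl
  have hp : p = Walk.nil := by
    cases p with
    | nil => rfl
    | cons h q => simp at hl
  subst hp
  obtain ⟨c, hc⟩ := exists_nbr (hd a)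
  refine ⟨c, hc.toWalk, Walk.IsPath.of_adj hc, rfl, ?_⟩
  rw [Walk.toSubgraph, singletonSubgraph_le_iff]
  exact Walk.start_mem_verts_toSubgraph _

theorem not_mem_interior_left {V : Type} {G : SimpleGraph V} {a b : V} (p : G.Walk a b)
    (hp : p.IsPath) (i : ℕ) (h0 : 0 < i) (hi : i ≤ p.length) : a ≠ p.getVert i := by
  intro h
  have := hp.getVert_injOn (by rw [Set.mem_ofPred_eq]; omega)
    (by rw [Set.mem_ofPred_eq]; omega : (0 : ℕ) ∈ {i | i ≤ p.length})
    (by rw [Walk.getVert_zero]; exact h.symm : p.getVert i = p.getVert 0)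
  omega

theorem not_mem_interior_right {V : Type} {G : SimpleGraph V} {a b : V} (p : G.Walk a b)
    (hp : p.IsPath) (i : ℕ) (hi : i < p.length) : b ≠ p.getVert i := by
  intro h
  have := hp.getVert_injOn (by rw [Set.mem_ofPred_eq]; omega)
    (by rw [Set.mem_ofPred_eq]; : p.length ∈ {i | i ≤ p.length})
    (by rw [Walk.getVert_length]; exact h.symm : p.getVert i = p.getVert p.length)
  omega

/-- In a `k`-connected graph with minimum degree at least two (`k ≥ 2`) paths with at most `k`
edges close to cycles. -/
theorem closes_of_kconn {V : Type} [Fintype V] {G : SimpleGraph V} {k : ℕ} (hk : 2 ≤ k)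
    (hG : KConn k G) {a b : V} (p : G.Walk a b) (hp : p.IsPath) (h2 : 2 ≤ p.length)
    (hl : p.length ≤ k) : Closes p := by
  classical
  rcases hG with hG | ⟨_, hG⟩
  · omega
  · let X : Finset V := (Finset.Ioo 0 p.length).image p.getVert
    have hX : X.card < k := by
      have := Finset.card_image_le (s := Finset.Ioo 0 p.length) (f := p.getVert)
      rw [Nat.card_Ioo] at this
      have h3 : X.card ≤ p.length - 0 - 1 := this
      omega
    have hXm : ∀ z, z ∈ (X : Set V) ↔ ∃ i, 0 < i ∧ i < p.length ∧ p.getVert i = z := by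
      intro z
      simp only [X, Finset.coe_image, Set.mem_image, Finset.coe_Ioo, Set.mem_Ioo]
      constructor
      · rintro ⟨i, ⟨h1, h2⟩, h3⟩
        exact ⟨i, h1, h2, h3⟩
      · rintro ⟨i, h1, h2, h3⟩
        exact ⟨i, ⟨h1, h2⟩, h3⟩
    have ha : a ∉ (X : Set V) := by
      rw [hXm]
      rintro ⟨i, h1, h3, h4⟩
      exact not_mem_interior_left p hp i h1 h3.le h4.symm
    have hb : b ∉ (X : Set V) := by
      rw [hXm]
      rintro ⟨i, h1, h3, h4⟩
      exact not_mem_interior_right p hp i h3 h4.symm
    obtain ⟨q, hq, hqX⟩ := exists_path_avoiding (hG X hX) hb ha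
    refine closes_of_return p hp h2 q hq ?_
    intro z hz i h1 h3 h4
    exact hqX z hz ((hXm z).2 ⟨i, h1, h3, h4.symm⟩)

theorem mem_S_of_le {d k ℓ : ℕ} (hk : 2 ≤ k) (hd : 2 ≤ d) (hl : ℓ ≤ k) : ℓ ∈ S d k := by
  intro V _ G hreg hG a b p hp hlen
  have hdeg : ∀ v, 2 ≤ (G.neighborSet v).ncard := fun v => by rw [hreg v]; exact hd
  have h2 : ∀ (a b : V) (p : G.Walk a b), p.IsPath → p.length = 2 → Closes p := by
    intro a b p hp hlen
    exact closes_of_kconn hk hG p hp (by omega) (by omega)
  have h1 : ∀ (a b : V) (p : G.Walk a b), p.IsPath → p.length = 1 → Closes p := by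
    intro a b p hp hlen
    obtain ⟨c, p', hp', hl', hle⟩ := extend_one hdeg p hp hlen
    exact closes_of_le p p' hle (h2 _ _ p' hp' hl')
  rcases Nat.lt_or_ge ℓ 2 with h | h
  · have : ℓ = 0 ∨ ℓ = 1 := by omega
    rcases this with h0 | h0
    · subst h0
      obtain ⟨c, p', hp', hl', hle⟩ := extend_zero (fun v => by have := hdeg v; omega) p hlen
      exact closes_of_le p p' hle (h1 _ _ p' hp' hl')
    · subst h0
      exact h1 a b p hp hlen
  · exact closes_of_kconn hk hG p hp (by omega) (by omega)

/-- `4 ∈ S 3 3`. -/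
theorem four_mem : 4 ∈ S 3 3 := by
  classical
  intro V _ G hreg hG a b p hp hlen
  rcases hG with hG | ⟨_, hG⟩
  · omega
  · let X : Finset V := {p.getVert 1, p.getVert 3}
    have hX : X.card < 3 := by
      have := Finset.card_insert_le (p.getVert 1) {p.getVert 3}
      rw [Finset.card_singleton] at this
      have h3 : X.card ≤ 1 + 1 := this
      omega
    have hXm : ∀ z, z ∈ (X : Set V) ↔ z = p.getVert 1 ∨ z = p.getVert 3 := by
      intro z
      simp [X]
    have ha : a ∉ (X : Set V) := by
      rw [hXm]
      rintro (h | h)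
      · exact not_mem_interior_left p hp 1 (by omega) (by omega) h
      · exact not_mem_interior_left p hp 3 (by omega) (by omega) h
    have hb : b ∉ (X : Set V) := by
      rw [hXm]
      rintro (h | h)
      · exact not_mem_interior_right p hp 1 (by omega) h
      · exact not_mem_interior_right p hp 3 (by omega) h
    obtain ⟨q, hq, hqX⟩ := exists_path_avoiding (hG X hX) hb ha
    refine closes_of_return p hp (by omega) q hq ?_
    intro z hz i h1 h3 h4
    have hi : i = 1 ∨ i = 2 ∨ i = 3 := by omega
    rcases hi with rfl | rfl | rfl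
    · exact hqX z hz ((hXm z).2 (Or.inl h4))
    · -- the middle vertex
      have hzq := hz
      rw [Walk.mem_support_iff_exists_getVert] at hzq
      obtain ⟨j, hj, hjl⟩ := hzq
      have hj0 : j ≠ 0 := by
        rintro rfl
        rw [Walk.getVert_zero] at hj
        exact not_mem_interior_right p hp 2 (by omega) (hj.trans h4)
      have hjl' : j ≠ q.length := by
        rintro rfl
        rw [Walk.getVert_length] at hj
        exact not_mem_interior_left p hp 2 (by omega) (by omega) (hj.trans h4)
      have e1 : (q.toSubgraph.neighborSet z).ncard = 2 := by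
        rw [← hj]
        exact hq.ncard_neighborSet_toSubgraph_internal_eq_two hj0 (by omega)
      have e2 : (p.toSubgraph.neighborSet z).ncard = 2 := by
        rw [h4]
        exact hp.ncard_neighborSet_toSubgraph_internal_eq_two (by omega) (by omega)
      have e3 : Disjoint (q.toSubgraph.neighborSet z) (p.toSubgraph.neighborSet z) := by
        rw [Set.disjoint_left]
        intro w hw1 hw2
        rw [h4, hp.neighborSet_toSubgraph_internal (by omega) (by omega)] at hw2
        have hw3 : w ∈ (X : Set V) := by
          rw [hXm]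
          simpa using hw2
        have hw4 : w ∈ q.support :=
          Walk.mem_support_of_adj_toSubgraph (Subgraph.Adj.symm hw1)
        exact hqX w hw4 hw3
      have e4 : (q.toSubgraph.neighborSet z ∪ p.toSubgraph.neighborSet z) ⊆ G.neighborSet z :=
        Set.union_subset (Subgraph.neighborSet_subset _ _) (Subgraph.neighborSet_subset _ _)
      have e5 := Set.ncard_le_ncard e4 (Set.toFinite _)
      rw [Set.ncard_union_eq e3 (Set.toFinite _) (Set.toFinite _), e1, e2, hreg z] at e5
      omega
    · exact hqX z hz ((hXm z).2 (Or.inr h4))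

theorem ncard_eq_degree {V : Type} [Fintype V] (G : SimpleGraph V) [DecidableRel G.Adj]
    (v : V) : (G.neighborSet v).ncard = G.degree v := by
  rw [← card_neighborSet_eq_degree, ← Nat.card_eq_fintype_card, Nat.card_coe_set_eq]

/-- in a graph with all degrees even no edge is a bridge -/
theorem even_no_bridge {V : Type} [Fintype V] {G : SimpleGraph V} {d : ℕ} (hd : Even d)
    (hreg : ∀ v, (G.neighborSet v).ncard = d) {u v : V} (h : G.Adj u v) :
    (G.deleteEdges {s(u, v)}).Reachable u v := by
  classical
  by_contra hcon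
  let H := G.deleteEdges {s(u, v)}
  let K : SimpleGraph V :=
    { Adj := fun x y => H.Adj x y ∧ H.Reachable u x
      symm := ⟨fun x y hxy => ⟨hxy.1.symm, hxy.2.trans hxy.1.reachable⟩⟩
      loopless := ⟨fun x hx => hx.1.ne rfl⟩ }
  have hd1 : 1 ≤ d := by
    rw [← hreg u]
    have : v ∈ G.neighborSet u := h
    exact (Set.ncard_pos (Set.toFinite _)).2 ⟨v, this⟩
  have hKu : K.neighborSet u = G.neighborSet u \ {v} := by
    ext x
    simp only [mem_neighborSet, Set.mem_sdiff, Set.mem_singleton_iff]
    constructor
    · rintro ⟨h1, _⟩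
      rw [deleteEdges_adj] at h1
      refine ⟨h1.1, ?_⟩
      rintro rfl
      exact h1.2 rfl
    · rintro ⟨h1, h2⟩
      refine ⟨?_, Reachable.refl _⟩
      rw [deleteEdges_adj]
      refine ⟨h1, ?_⟩
      rw [Set.mem_singleton_iff, Sym2.eq_iff]
      rintro (⟨_, h3⟩ | ⟨h3, _⟩)
      · exact h2 h3
      · exact h.ne h3
  have hodd : Odd (K.degree u) := by
    rw [← ncard_eq_degree, hKu, Set.ncard_sdiff_singleton_of_mem (show v ∈ G.neighborSet u from h), hreg u]
    rcases hd with ⟨t, ht⟩
    exact ⟨t - 1, by omega⟩
  obtain ⟨w, hwu, hw⟩ := K.exists_ne_odd_degree_of_exists_odd_degree u hodd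
  by_cases hr : H.Reachable u w
  · have hwv : w ≠ v := by
      rintro rfl
      exact hcon hr
    have : K.neighborSet w = G.neighborSet w := by
      ext x
      simp only [mem_neighborSet]
      constructor
      · rintro ⟨h1, _⟩
        rw [deleteEdges_adj] at h1
        exact h1.1
      · intro h1
        refine ⟨?_, hr⟩
        rw [deleteEdges_adj]
        refine ⟨h1, ?_⟩
        rw [Set.mem_singleton_iff, Sym2.eq_iff]
        rintro (⟨h3, _⟩ | ⟨h3, _⟩)
        · exact hwu h3
        · exact hwv h3
    rw [← ncard_eq_degree, this, hreg w] at hw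
    exact (Nat.not_odd_iff_even.2 hd) hw
  · have : K.neighborSet w = ∅ := by
      ext x
      simp only [mem_neighborSet, Set.mem_empty_iff_false, iff_false]
      rintro ⟨_, h1⟩
      exact hr h1
    rw [← ncard_eq_degree, this, Set.ncard_empty] at hw
    exact (by decide : ¬ Odd 0) hw

theorem not_nil_of_pos {V : Type} {G : SimpleGraph V} {a b : V} (p : G.Walk a b)
    (h : 0 < p.length) : ¬ p.Nil := by
  rw [Walk.not_nil_iff_lt_length]
  exact h

theorem one_mem_even {d : ℕ} (hd : Even d) : 1 ∈ S d 0 := by
  intro V _ G hreg _ a b p hp hlen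
  have hab : G.Adj a b := Walk.adj_of_length_eq_one hlen
  obtain ⟨u, c, hc, he⟩ := adj_and_reachable_delete_edges_iff_exists_cycle.1
    ⟨hab, even_no_bridge hd hreg hab⟩
  refine ⟨u, c, hc, ?_⟩
  rw [Walk.toSubgraph_le_iff (not_nil_of_pos p (by omega))]
  intro e he'
  have he2 : e ∈ p.edges := he'
  cases p with
  | nil => simp at hlen
  | cons h q =>
    cases q with
    | nil =>
      simp at he2
      subst he2
      rw [Walk.edgeSet_toSubgraph]
      exact he
    | cons h' q' => simp at hlen

theorem zero_mem_even {d : ℕ} (hd : Even d) (hd2 : 1 ≤ d) : 0 ∈ S d 0 := by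
  intro V _ G hreg hk a b p hp hlen
  obtain ⟨c, p', hp', hl', hle⟩ := extend_zero (fun v => by rw [hreg v]; exact hd2) p hlen
  exact closes_of_le p p' hle (one_mem_even hd V G hreg hk _ _ p' hp' hl')

/-- every path in a 2-regular graph closes -/
theorem S_two : S 2 0 = Set.univ := by
  classical
  rw [Set.eq_univ_iff_forall]
  intro ℓ V _ G hreg _ a b p hp hlen
  have hcyc : G.IsCycles := fun v _ => hreg v
  have hne : (G.neighborSet a).Nonempty := by
    rw [← Set.ncard_pos (Set.toFinite _), hreg a]
    norm_num
  obtain ⟨c, hc, hv⟩ := hcyc.exists_cycle_toSubgraph_verts_eq_connectedComponentSupp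
    (c := G.connectedComponentMk a) (v := a) rfl hne
  refine ⟨a, c, hc, ?_⟩
  have hmem : ∀ x, G.Reachable a x → x ∈ c.support := by
    intro x hx
    rw [← Walk.mem_verts_toSubgraph, hv]
    exact ConnectedComponent.sound hx.symm
  have hadj : ∀ x y, G.Reachable a x → G.Adj x y → c.toSubgraph.Adj x y := by
    intro x y hx hxy
    have e1 := hc.ncard_neighborSet_toSubgraph_eq_two (hmem x hx)
    have e2 : c.toSubgraph.neighborSet x = G.neighborSet x :=
      Set.eq_of_subset_of_ncard_le (Subgraph.neighborSet_subset _ _)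
        (by rw [e1, hreg x]) (Set.toFinite _)
    have : y ∈ G.neighborSet x := hxy
    rw [← e2] at this
    exact this
  constructor
  · intro x hx
    rw [Walk.mem_verts_toSubgraph] at hx
    rw [Walk.mem_verts_toSubgraph]
    exact hmem x (p.takeUntil x hx).reachable
  · intro x y hxy
    have hx : x ∈ p.support := Walk.mem_support_of_adj_toSubgraph hxy
    exact hadj x y (p.takeUntil x hx).reachable (Subgraph.Adj.adj_sub hxy)

end Pool.Agent.H568.PC
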