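import Pool.Agent.H568.PC.Base

/-! Regularisation of a `k`-connected graph. -/

namespace Pool.Agent.H568.PC

open SimpleGraph

theorem deg_ge_of_kconn {W : Type} [Fintype W] {H : SimpleGraph W} {k : ℕ}
    (hH : KConn k H) (v : W) : k ≤ (H.neighborSet v).ncard := by
  classical
  rcases hH with h | ⟨h1, h2⟩
  · omega
  · by_contra hcon
    push Not at hcon
    let X : Finset W := (Set.toFinite (H.neighborSet v)).toFinset
    have hX : X.card < k := by
      rw [← Set.ncard_eq_toFinset_card]
      exact hcon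
    have hXm : ∀ z, z ∈ (X : Set W) ↔ H.Adj v z := by
      intro z
      simp [X]
    have hv : v ∉ (X : Set W) := by
      rw [hXm]
      exact fun h => h.ne rfl
    obtain ⟨z, hz⟩ : ∃ z, z ∉ insert v X := by
      by_contra hall
      push Not at hall
      have : (Finset.univ : Finset W) ⊆ insert v X := fun z _ => hall z
      have h3 := Finset.card_le_card this
      have h4 := Finset.card_insert_le v X
      rw [Finset.card_univ] at h3
      omega
    rw [Finset.mem_insert, not_or] at hz
    have hz2 : z ∉ (X : Set W) := hz.2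
    have h5 := rch_of_reachable (G := H) (X := (X : Set W)) ⟨v, hv⟩ ⟨z, hz2⟩
      ((h2 X hX).preconnected _ _)
    unfold Rch at h5
    rcases Relation.ReflTransGen.cases_head h5 with h6 | ⟨w, h6, _⟩
    · exact hz.1 h6.symm
    · exact h6.2.2 ((hXm w).2 h6.1)

/-- copies of `H` indexed by the cube; a vertex `x` is joined to its copies in the first `δ x`
directions -/
def regG {W : Type} (H : SimpleGraph W) (m : ℕ) (δ : W → ℕ) :
    SimpleGraph (W × (Fin m → Bool)) where
  Adj p q := (H.Adj p.1 q.1 ∧ p.2 = q.2) ∨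
    (p.1 = q.1 ∧ ∃ i : Fin m, i.val < δ p.1 ∧ q.2 = Function.update p.2 i (!p.2 i))
  symm := ⟨by
    rintro p q (⟨h1, h2⟩ | ⟨h1, i, h2, h3⟩)
    · exact Or.inl ⟨h1.symm, h2.symm⟩
    · refine Or.inr ⟨h1.symm, i, by rw [← h1]; exact h2, ?_⟩
      rw [h3]
      simp⟩
  loopless := ⟨by
    rintro p (⟨h1, _⟩ | ⟨_, i, _, h3⟩)
    · exact h1.ne rfl
    · have := congrFun h3 i
      simp at this⟩

theorem regG_nbr {W : Type} (H : SimpleGraph W) (m : ℕ) (δ : W → ℕ) (x : W)
    (s : Fin m → Bool) : (regG H m δ).neighborSet (x, s) =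
      (fun y => (y, s)) '' H.neighborSet x ∪
      (fun i => (x, Function.update s i (!s i))) '' {i : Fin m | i.val < δ x} := by
  ext ⟨y, t⟩
  simp only [mem_neighborSet, Set.mem_union, Set.mem_image, Prod.mk.injEq]
  constructor
  · rintro (⟨h1, h2⟩ | ⟨h1, i, h2, h3⟩)
    · exact Or.inl ⟨y, h1, rfl, h2⟩
    · exact Or.inr ⟨i, h2, h1, h3.symm⟩
  · rintro (⟨y', h1, rfl, h2⟩ | ⟨i, h2, h1, h3⟩)
    · exact Or.inl ⟨h1, h2⟩
    · exact Or.inr ⟨h1, i, h2, h3.symm⟩

theorem regG_degree {W : Type} [Fintype W] (H : SimpleGraph W) (m d : ℕ)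
    (hup : ∀ x, (H.neighborSet x).ncard ≤ d) (hlow : ∀ x, d - m ≤ (H.neighborSet x).ncard)
    (x : W) (s : Fin m → Bool) :
    ((regG H m (fun x => d - (H.neighborSet x).ncard)).neighborSet (x, s)).ncard = d := by
  rw [regG_nbr, Set.ncard_union_eq]
  · rw [Set.ncard_image_of_injective, Set.ncard_image_of_injective]
    · have : ({i : Fin m | i.val < d - (H.neighborSet x).ncard} : Set (Fin m)).ncard =
          d - (H.neighborSet x).ncard := by
        have h1 : d - (H.neighborSet x).ncard ≤ m := by
          have := hlow x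
          omega
        have h2 : ({i : Fin m | i.val < d - (H.neighborSet x).ncard} : Set (Fin m)) =
            (Fin.castLE h1) '' Set.univ := by
          ext i
          simp only [Set.mem_image, Set.mem_univ, true_and]
          constructor
          · intro hi
            exact ⟨⟨i.val, hi⟩, by ext; rfl⟩
          · rintro ⟨j, rfl⟩
            exact j.2
        rw [h2, Set.ncard_image_of_injective _ (Fin.castLE_injective h1), Set.ncard_univ,
          Nat.card_fin]
      rw [this]
      have := hup x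
      omega
    · intro i j hij
      simp only [Prod.mk.injEq, true_and] at hij
      by_contra hne
      have := congrFun hij i
      rw [Function.update_self, Function.update_of_ne hne] at this
      simp at this
    · intro y z hyz
      simpa using hyz
  · rw [Set.disjoint_left]
    rintro ⟨y, t⟩ h1 h2
    simp only [Set.mem_image, Prod.mk.injEq] at h1 h2
    obtain ⟨y', h3, rfl, h4⟩ := h1
    obtain ⟨i, _, h5, _⟩ := h2
    subst h5
    exact (show H.Adj _ _ from h3).ne rfl

theorem cube_rch {W : Type} (H : SimpleGraph W) (m : ℕ) (δ : W → ℕ)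
    (X : Set (W × (Fin m → Bool))) (c : W) (hc : m ≤ δ c) (hX : ∀ s, (c, s) ∉ X)
    (s t : Fin m → Bool) : Rch (regG H m δ) X (c, s) (c, t) := by
  classical
  have key : ∀ T : Finset (Fin m), Rch (regG H m δ) X (c, s)
      (c, fun i => if i ∈ T then t i else s i) := by
    intro T
    induction T using Finset.induction_on with
    | empty => simpa using Rch.refl _
    | insert i T hi ih =>
      refine ih.trans ?_
      by_cases h : t i = s i
      · have : (fun j => if j ∈ insert i T then t j else s j) =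
            (fun j => if j ∈ T then t j else s j) := by
          funext j
          by_cases hj : j = i
          · subst hj
            simp [h]
          · simp [hj]
        rw [this]
        exact Rch.refl _
      · refine Rch.single ?_ (hX _) (hX _)
        refine Or.inr ⟨rfl, i, lt_of_lt_of_le i.2 hc, ?_⟩
        funext j
        by_cases hj : j = i
        · subst hj
          simp [hi]
          cases ht : t j <;> cases hs : s j <;> simp_all
        · simp [hj]
  have := key Finset.univ
  simpa using this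

theorem regG_kconn {W : Type} [Fintype W] (H : SimpleGraph W) (m k : ℕ) (δ : W → ℕ)
    (hk : 1 ≤ k) (hH : KConn k H) (D : Finset W) (hD : k ≤ D.card) (hDδ : ∀ c ∈ D, m ≤ δ c) :
    KConn k (regG H m δ) := by
  classical
  right
  rcases hH with h | ⟨h1, h2⟩
  · omega
  refine ⟨?_, ?_⟩
  · rw [Fintype.card_prod]
    have : 1 ≤ Fintype.card (Fin m → Bool) := Fintype.card_pos
    nlinarith
  · intro X hX
    have h3 : (X.image Prod.fst).card < D.card :=
      lt_of_le_of_lt Finset.card_image_le (by omega)
    obtain ⟨c, hcD, hcX⟩ := Finset.exists_mem_notMem_of_card_lt_card h3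
    have hcX' : ∀ s, (c, s) ∉ (X : Set (W × (Fin m → Bool))) := by
      intro s hs
      apply hcX
      rw [Finset.mem_image]
      exact ⟨(c, s), hs, rfl⟩
    refine connected_of_root (c, fun _ => false) (hcX' _) ?_
    rintro ⟨x, s⟩ hx
    refine Rch.trans ?_ (cube_rch H m δ _ c (hDδ c hcD) hcX' s _)
    let Xs : Finset W := (X.filter (fun p => p.2 = s)).image Prod.fst
    have hXs : Xs.card < k :=
      lt_of_le_of_lt Finset.card_image_le (lt_of_le_of_lt (Finset.card_filter_le _ _) hX)
    have hXm : ∀ y, y ∈ (Xs : Set W) ↔ (y, s) ∈ (X : Set (W × (Fin m → Bool))) := by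
      intro y
      simp only [Xs, Finset.coe_image, Set.mem_image, Finset.mem_coe, Finset.mem_filter]
      constructor
      · rintro ⟨⟨y', t⟩, ⟨h4, h5⟩, h6⟩
        simp only at h5 h6
        subst h5
        subst h6
        exact h4
      · intro h4
        exact ⟨(y, s), ⟨h4, rfl⟩, rfl⟩
    have hx' : x ∉ (Xs : Set W) := by
      rw [hXm]
      exact hx
    have hc' : c ∉ (Xs : Set W) := by
      rw [hXm]
      exact hcX' s
    have h4 := rch_of_reachable (G := H) (X := (Xs : Set W)) ⟨x, hx'⟩ ⟨c, hc'⟩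
      ((h2 Xs hXs).preconnected _ _)
    have h5 : ∀ y, Rch H (Xs : Set W) x y →
        Rch (regG H m δ) (X : Set (W × (Fin m → Bool))) (x, s) (y, s) := by
      intro y hy
      unfold Rch at hy
      induction hy with
      | refl => exact Rch.refl _
      | @tail b c _ h ih =>
        refine ih.trans (Rch.single (Or.inl ⟨h.1, rfl⟩) ?_ ?_)
        · rw [← hXm]
          exact h.2.1
        · rw [← hXm]
          exact h.2.2
    exact h5 c h4

/-- A seed graph gives a `d`-regular `k`-connected graph with an unclosed path. -/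
theorem bad_of_seed {W : Type} [Fintype W] (H : SimpleGraph W) (d k : ℕ) (hk : 1 ≤ k)
    (hkd : k ≤ d) (hH : KConn k H) (hup : ∀ x, (H.neighborSet x).ncard ≤ d)
    (D : Finset W) (hD : k ≤ D.card) (hDdeg : ∀ x ∈ D, (H.neighborSet x).ncard = k)
    (A : Set W) (hA : ∀ x ∈ A, (H.neighborSet x).ncard = d)
    (f : ℕ → W) (ℓ : ℕ) (hadj : ∀ i < ℓ, H.Adj (f i) (f (i + 1)))
    (hinj : ∀ i ≤ ℓ, ∀ j ≤ ℓ, f i = f j → i = j) (h0 : f 0 ∈ A) (hl : f ℓ ∉ A)
    (hout : ∀ x ∈ A, ∀ y ∉ A, H.Adj x y → ∃ i, 0 < i ∧ i < ℓ ∧ f i = y) :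
    ℓ ∉ S d k := by
  intro hS
  let m := d - k
  let δ : W → ℕ := fun x => d - (H.neighborSet x).ncard
  let s0 : Fin m → Bool := fun _ => false
  let G := regG H m δ
  have hreg : ∀ v, (G.neighborSet v).ncard = d := by
    rintro ⟨x, s⟩
    refine regG_degree H m d hup ?_ x s
    intro x
    have := deg_ge_of_kconn hH x
    omega
  have hconn : KConn k G := by
    refine regG_kconn H m k δ hk hH D hD ?_
    intro c hc
    show d - k ≤ d - (H.neighborSet c).ncard
    rw [hDdeg c hc]
  obtain ⟨p, hp, hpl, hpg⟩ := exists_walk_of_fun (G := G) (fun i => (f i, s0)) ℓ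
    (fun i hi => Or.inl ⟨hadj i hi, rfl⟩)
    (fun i hi j hj hij => hinj i hi j hj (by simpa using hij))
  refine not_closes p hp {q | q.1 ∈ A ∧ q.2 = s0} ⟨h0, rfl⟩ ?_ ?_ (hS _ G hreg hconn _ _ p hp hpl)
  · rintro ⟨h1, _⟩
    exact hl h1
  · rintro ⟨x, s⟩ ⟨hx, hs⟩ ⟨y, t⟩ hy h1
    simp only at hx hs
    subst hs
    rcases h1 with ⟨h1, h2⟩ | ⟨h1, i, h2, h3⟩
    · simp only at h1 h2
      subst h2
      have hyA : y ∉ A := fun h => hy ⟨h, rfl⟩
      obtain ⟨i, h3, h4, h5⟩ := hout x hx y hyA h1
      refine ⟨i, h3, by rw [hpl]; exact h4, ?_⟩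
      rw [hpg i h4.le, h5]
    · exfalso
      have : δ x = 0 := by
        show d - (H.neighborSet x).ncard = 0
        rw [hA x hx]
        omega
      simp only at h2
      omega

end Pool.Agent.H568.PC
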