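import Pool.Agent.H568.PC.Reg

/-! The seed graphs: a clique-like end `A`, a cut of `k` vertices carrying a path, and a clique. -/

namespace Pool.Agent.H568.PC

open SimpleGraph

theorem ncard_sum {α β : Type} [Finite α] [Finite β] (s : Set (α ⊕ β)) :
    s.ncard = (Sum.inl ⁻¹' s).ncard + (Sum.inr ⁻¹' s).ncard := by
  have h : s = Sum.inl '' (Sum.inl ⁻¹' s) ∪ Sum.inr '' (Sum.inr ⁻¹' s) := by
    ext x
    rcases x with x | x <;> simp
  conv_lhs => rw [h]
  rw [Set.ncard_union_eq]
  · rw [Set.ncard_image_of_injective _ Sum.inl_injective,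
      Set.ncard_image_of_injective _ Sum.inr_injective]
  · rw [Set.disjoint_left]
    rintro x ⟨a, _, rfl⟩ ⟨b, _, h⟩
    simp at h

/-- vertex type of the seed -/
abbrev SW (d k : ℕ) : Type := Fin (d + 1) ⊕ (Fin k ⊕ Fin k)

/-- number of matched vertices -/
def TT (k : ℕ) : ℕ := 2 * ((k + 1) / 2)

/-- adjacency between cut vertices -/
def vAdj (k i j : ℕ) : Prop :=
  i ≠ j ∧ (i + 1 = j ∨ j + 1 = i ∨ (i < j + (k - 1) ∧ j < i + (k - 1)))

def seedAdj (d k : ℕ) : SW d k → SW d k → Prop
  | .inl a, .inl b => a ≠ b ∧ ¬ (a.val < TT k ∧ b.val < TT k ∧ a.val / 2 = b.val / 2)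
  | .inl a, .inr (.inl i) => a.val < TT k ∧ min a.val (k - 1) = i.val
  | .inr (.inl i), .inl a => a.val < TT k ∧ min a.val (k - 1) = i.val
  | .inl _, .inr (.inr _) => False
  | .inr (.inr _), .inl _ => False
  | .inr (.inl i), .inr (.inl j) => vAdj k i.val j.val
  | .inr (.inl i), .inr (.inr j) => i = j
  | .inr (.inr i), .inr (.inl j) => i = j
  | .inr (.inr i), .inr (.inr j) => i ≠ j

def seedG (d k : ℕ) : SimpleGraph (SW d k) where
  Adj := seedAdj d k
  symm := ⟨by
    rintro (a | i | i) (b | j | j) h <;> simp only [seedAdj, vAdj] at h ⊢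
    · exact ⟨h.1.symm, fun hh => h.2 ⟨hh.2.1, hh.1, hh.2.2.symm⟩⟩
    · exact h
    · exact h
    · omega
    · exact h.symm
    · exact h.symm
    · exact fun hh => h hh.symm⟩
  loopless := ⟨by
    rintro (a | i | i) h <;> simp only [seedAdj, vAdj] at h
    · exact h.1 rfl
    · exact h.1 rfl
    · exact h rfl⟩

theorem seedG_vc {d k : ℕ} (i : Fin k) : (seedG d k).Adj (.inr (.inl i)) (.inr (.inr i)) := by
  show i = i
  rfl

theorem seedG_adj {d k : ℕ} (x y : SW d k) : (seedG d k).Adj x y ↔ seedAdj d k x y := Iff.rfl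

theorem seed_deg_A {d k : ℕ} (hk : 1 ≤ k) (hkd : k < d) (a : Fin (d + 1)) :
    ((seedG d k).neighborSet (.inl a)).ncard = d := by
  have hT : TT k ≤ d + 1 := by unfold TT; omega
  rw [ncard_sum, ncard_sum]
  have e3 : (Sum.inr ⁻¹' (Sum.inr ⁻¹' (seedG d k).neighborSet (.inl a)) : Set (Fin k)) = ∅ := by
    ext j
    simp [seedG, seedAdj]
  rw [e3, Set.ncard_empty]
  by_cases ha : a.val < TT k
  · have e1 : (Sum.inl ⁻¹' (seedG d k).neighborSet (.inl a) : Set (Fin (d + 1))) =
        {a, ⟨if a.val % 2 = 0 then a.val + 1 else a.val - 1, by unfold TT at ha hT; split_ifs <;> omega⟩}ᶜ := by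
      ext b
      simp only [Set.mem_preimage, mem_neighborSet, seedG, seedAdj, Set.mem_compl_iff,
        Set.mem_insert_iff, Set.mem_singleton_iff, not_or, Fin.ext_iff, ne_eq]
      unfold TT at ha hT ⊢
      constructor
      · rintro ⟨h1, h2⟩
        refine ⟨fun h => h1 h.symm, ?_⟩
        intro h
        apply h2
        split_ifs at h <;> omega
      · rintro ⟨h1, h2⟩
        refine ⟨fun h => h1 h.symm, ?_⟩
        rintro ⟨_, h4, h5⟩
        apply h2
        split_ifs <;> omega
    have e2 : (Sum.inl ⁻¹' (Sum.inr ⁻¹' (seedG d k).neighborSet (.inl a)) : Set (Fin k)) =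
        {⟨min a.val (k - 1), by omega⟩} := by
      ext j
      simp only [Set.mem_preimage, mem_neighborSet, seedG, seedAdj, Set.mem_singleton_iff,
        Fin.ext_iff]
      constructor
      · rintro ⟨_, h⟩
        exact h.symm
      · intro h
        exact ⟨ha, h.symm⟩
    rw [e1, e2, Set.ncard_singleton, Set.ncard_compl, Set.ncard_pair, Nat.card_fin]
    · omega
    · intro h
      rw [Fin.ext_iff] at h
      simp only at h
      split_ifs at h <;> omega
  · have e1 : (Sum.inl ⁻¹' (seedG d k).neighborSet (.inl a) : Set (Fin (d + 1))) = {a}ᶜ := by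
      ext b
      simp only [Set.mem_preimage, mem_neighborSet, seedG, seedAdj, Set.mem_compl_iff,
        Set.mem_singleton_iff]
      constructor
      · rintro ⟨h1, _⟩
        exact fun h => h1 h.symm
      · intro h1
        exact ⟨fun h => h1 h.symm, fun h => ha h.1⟩
    have e2 : (Sum.inl ⁻¹' (Sum.inr ⁻¹' (seedG d k).neighborSet (.inl a)) : Set (Fin k)) = ∅ := by
      ext j
      simp only [Set.mem_preimage, mem_neighborSet, seedG, seedAdj, Set.mem_empty_iff_false,
        iff_false]
      exact fun h => ha h.1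
    rw [e1, e2, Set.ncard_empty, Set.ncard_compl, Set.ncard_singleton, Nat.card_fin]
    omega

theorem seed_deg_C {d k : ℕ} (hk : 1 ≤ k) (c : Fin k) :
    ((seedG d k).neighborSet (.inr (.inr c))).ncard = k := by
  rw [ncard_sum, ncard_sum]
  have e1 : (Sum.inl ⁻¹' (seedG d k).neighborSet (.inr (.inr c)) : Set (Fin (d + 1))) = ∅ := by
    ext j
    simp [seedG, seedAdj]
  have e2 : (Sum.inl ⁻¹' (Sum.inr ⁻¹' (seedG d k).neighborSet (.inr (.inr c))) : Set (Fin k)) =
      {c} := by
    ext j
    simp only [Set.mem_preimage, mem_neighborSet, seedG, seedAdj, Set.mem_singleton_iff]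
    exact eq_comm
  have e3 : (Sum.inr ⁻¹' (Sum.inr ⁻¹' (seedG d k).neighborSet (.inr (.inr c))) : Set (Fin k)) =
      {c}ᶜ := by
    ext j
    simp only [Set.mem_preimage, mem_neighborSet, seedG, seedAdj, Set.mem_singleton_iff,
      Set.mem_compl_iff]
    exact ⟨fun h h' => h h'.symm, fun h h' => h h'.symm⟩
  rw [e1, e2, e3, Set.ncard_empty, Set.ncard_singleton, Set.ncard_compl, Set.ncard_singleton,
    Nat.card_fin]
  omega

theorem seed_deg_V {d k : ℕ} (hd : 3 ≤ d) (hk : 1 ≤ k) (hkd : k < d) (i : Fin k) :
    ((seedG d k).neighborSet (.inr (.inl i))).ncard ≤ d := by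
  rw [ncard_sum, ncard_sum]
  have e3 : (Sum.inr ⁻¹' (Sum.inr ⁻¹' (seedG d k).neighborSet (.inr (.inl i))) : Set (Fin k)) =
      {i} := by
    ext j
    simp only [Set.mem_preimage, mem_neighborSet, seedG, seedAdj, Set.mem_singleton_iff]
    exact eq_comm
  have b2 : (Sum.inl ⁻¹' (Sum.inr ⁻¹' (seedG d k).neighborSet (.inr (.inl i))) :
      Set (Fin k)).ncard ≤ k - 1 := by
    have : (Sum.inl ⁻¹' (Sum.inr ⁻¹' (seedG d k).neighborSet (.inr (.inl i))) : Set (Fin k)) ⊆
        {i}ᶜ := by
      intro j hj h
      rw [Set.mem_singleton_iff] at h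
      subst h
      rw [Set.mem_preimage, Set.mem_preimage, mem_neighborSet] at hj
      exact (seedG d k).irrefl hj
    have h2 := Set.ncard_le_ncard this (Set.toFinite _)
    rw [Set.ncard_compl, Set.ncard_singleton, Nat.card_fin] at h2
    exact h2
  rw [e3, Set.ncard_singleton]
  by_cases hi : i.val < k - 1
  · have e1 : (Sum.inl ⁻¹' (seedG d k).neighborSet (.inr (.inl i)) : Set (Fin (d + 1))) ⊆
        {⟨i.val, by omega⟩} := by
      intro a ha
      simp only [Set.mem_preimage, mem_neighborSet, seedG, seedAdj] at ha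
      rw [Set.mem_singleton_iff, Fin.ext_iff]
      show a.val = i.val
      omega
    have h1 := Set.ncard_le_ncard e1 (Set.toFinite _)
    rw [Set.ncard_singleton] at h1
    omega
  · have hi' : i.val = k - 1 := by have := i.2; omega
    have hk1 : k < d + 1 := by omega
    have e1 : (Sum.inl ⁻¹' (seedG d k).neighborSet (.inr (.inl i)) : Set (Fin (d + 1))) ⊆
        {⟨k - 1, by omega⟩, ⟨k, hk1⟩} := by
      intro a ha
      simp only [Set.mem_preimage, mem_neighborSet, seedG, seedAdj, TT] at ha
      simp only [Set.mem_insert_iff, Set.mem_singleton_iff, Fin.ext_iff]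
      omega
    have h1 := Set.ncard_le_ncard e1 (Set.toFinite _)
    have h1' := Set.ncard_insert_le (⟨k - 1, by omega⟩ : Fin (d + 1)) {⟨k, hk1⟩}
    rw [Set.ncard_singleton] at h1'
    by_cases hk3 : 3 ≤ k
    · have : (Sum.inl ⁻¹' (Sum.inr ⁻¹' (seedG d k).neighborSet (.inr (.inl i))) :
          Set (Fin k)) ⊆ {i, ⟨0, by omega⟩}ᶜ := by
        intro j hj h
        simp only [Set.mem_preimage, mem_neighborSet, seedG, seedAdj, vAdj] at hj
        simp only [Set.mem_insert_iff, Set.mem_singleton_iff, Fin.ext_iff] at h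
        omega
      have h2 := Set.ncard_le_ncard this (Set.toFinite _)
      rw [Set.ncard_compl, Set.ncard_pair, Nat.card_fin] at h2
      · omega
      · intro h
        rw [Fin.ext_iff] at h
        simp only at h
        omega
    · by_cases hk2 : k = 2
      · have e1' : (Sum.inl ⁻¹' (seedG d k).neighborSet (.inr (.inl i)) :
            Set (Fin (d + 1))) ⊆ {⟨k - 1, by omega⟩} := by
          intro a ha
          simp only [Set.mem_preimage, mem_neighborSet, seedG, seedAdj, TT] at ha
          simp only [Set.mem_singleton_iff, Fin.ext_iff]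
          omega
        have h1'' := Set.ncard_le_ncard e1' (Set.toFinite _)
        rw [Set.ncard_singleton] at h1''
        omega
      · omega

theorem seed_kconn {d k : ℕ} (hk : 1 ≤ k) (hkd : k < d) : KConn k (seedG d k) := by
  classical
  right
  refine ⟨?_, ?_⟩
  · simp only [Fintype.card_sum, Fintype.card_fin]
    omega
  intro X hX
  let idx : SW d k → Fin k := fun w => match w with
    | .inl a => ⟨min a.val (k - 1), by omega⟩
    | .inr (.inl i) => i
    | .inr (.inr i) => i
  have huniv : (Finset.univ : Finset (Fin k)).card = k := by simp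
  -- an index with untouched triple
  have hfree : ∀ j : Fin k, j ∉ X.image idx → (Sum.inl ⟨j.val, by omega⟩ : SW d k) ∉ X ∧
      (Sum.inr (Sum.inl j) : SW d k) ∉ X ∧ (Sum.inr (Sum.inr j) : SW d k) ∉ X := by
    intro j hj
    refine ⟨?_, ?_, ?_⟩
    · intro h
      apply hj
      rw [Finset.mem_image]
      refine ⟨_, h, ?_⟩
      show (⟨min j.val (k - 1), _⟩ : Fin k) = j
      ext
      show min j.val (k - 1) = j.val
      omega
    · intro h
      exact hj (Finset.mem_image.2 ⟨_, h, rfl⟩)
    · intro h
      exact hj (Finset.mem_image.2 ⟨_, h, rfl⟩)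
  obtain ⟨j0, _, hj0⟩ : ∃ j ∈ (Finset.univ : Finset (Fin k)), j ∉ X.image idx := by
    apply Finset.exists_mem_notMem_of_card_lt_card
    rw [huniv]
    exact lt_of_le_of_lt Finset.card_image_le hX
  obtain ⟨ha0, hv0, hc0⟩ := hfree j0 hj0
  have hC : ∀ c : Fin k, (Sum.inr (Sum.inr c) : SW d k) ∉ X →
      Rch (seedG d k) (X : Set (SW d k)) (.inr (.inr c)) (.inr (.inr j0)) := by
    intro c hc
    by_cases h : c = j0
    · subst h
      exact Rch.refl _
    · exact Rch.single ((seedG_adj _ _).2 h) hc hc0
  have ha0r : Rch (seedG d k) (X : Set (SW d k)) (.inl ⟨j0.val, by omega⟩)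
      (.inr (.inr j0)) := by
    refine Rch.trans (y := .inr (.inl j0)) (Rch.single ?_ ha0 hv0)
      (Rch.single (seedG_vc _) hv0 hc0)
    rw [seedG_adj]
    simp only [seedAdj, TT]
    have := j0.2
    omega
  have hA : ∀ a : Fin (d + 1), (Sum.inl a : SW d k) ∉ X →
      Rch (seedG d k) (X : Set (SW d k)) (.inl a) (.inr (.inr j0)) := by
    intro a ha
    refine Rch.trans ?_ ha0r
    by_cases h : a = ⟨j0.val, by omega⟩
    · rw [h]
      exact Rch.refl _
    by_cases h2 : a.val < TT k ∧ j0.val < TT k ∧ a.val / 2 = j0.val / 2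
    · -- matched: use a third vertex
      let XA : Finset (Fin (d + 1)) := Finset.univ.filter (fun b => (Sum.inl b : SW d k) ∈ X)
      have hXA : XA.card ≤ X.card := by
        apply Finset.card_le_card_of_injOn (fun b => (Sum.inl b : SW d k))
        · intro b hb
          exact (Finset.mem_filter.1 hb).2
        · intro b _ c _ hbc
          exact Sum.inl_injective hbc
      obtain ⟨b, _, hb⟩ : ∃ b ∈ (Finset.univ : Finset (Fin (d + 1))),
          b ∉ insert a (insert (⟨j0.val, by omega⟩ : Fin (d + 1)) XA) := by
        apply Finset.exists_mem_notMem_of_card_lt_card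
        have h3 := Finset.card_insert_le a (insert (⟨j0.val, by omega⟩ : Fin (d + 1)) XA)
        have h4 := Finset.card_insert_le (⟨j0.val, by omega⟩ : Fin (d + 1)) XA
        have h5 : (Finset.univ : Finset (Fin (d + 1))).card = d + 1 := by simp
        omega
      rw [Finset.mem_insert, Finset.mem_insert, not_or, not_or] at hb
      obtain ⟨hb1, hb2, hb3⟩ := hb
      have hbX : (Sum.inl b : SW d k) ∉ X := by
        intro h3
        exact hb3 (Finset.mem_filter.2 ⟨Finset.mem_univ _, h3⟩)
      rw [Fin.ext_iff] at h hb1 hb2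
      simp only at h hb2
      refine Rch.trans (y := .inl b) (Rch.single ?_ ha hbX) (Rch.single ?_ hbX ha0)
      · rw [seedG_adj]
        simp only [seedAdj]
        refine ⟨fun h3 => hb1 (by rw [h3]), ?_⟩
        rintro ⟨_, _, h5⟩
        omega
      · rw [seedG_adj]
        simp only [seedAdj]
        refine ⟨fun h3 => hb2 (by rw [h3]), ?_⟩
        rintro ⟨_, _, h5⟩
        omega
    · refine Rch.single ?_ ha ha0
      rw [seedG_adj]
      simp only [seedAdj]
      exact ⟨h, h2⟩
  refine connected_of_root (.inr (.inr j0)) hc0 ?_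
  rintro (a | i | c) hx
  · exact hA a hx
  · by_cases hci : (Sum.inr (Sum.inr i) : SW d k) ∈ X
    · by_cases hai : (Sum.inl ⟨i.val, by omega⟩ : SW d k) ∈ X
      · -- both gone
        have himg : (X.image idx).card + 1 ≤ X.card := by
          have h1 : X.image idx = (X.erase (.inl ⟨i.val, by omega⟩)).image idx := by
            ext j
            simp only [Finset.mem_image, Finset.mem_erase]
            constructor
            · rintro ⟨w, hw, rfl⟩
              by_cases hwa : w = .inl ⟨i.val, by omega⟩
              · refine ⟨.inr (.inr i), ⟨by simp, hci⟩, ?_⟩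
                subst hwa
                show i = (⟨min i.val (k - 1), _⟩ : Fin k)
                ext
                show i.val = min i.val (k - 1)
                have := i.2
                omega
              · exact ⟨w, ⟨hwa, hw⟩, rfl⟩
            · rintro ⟨w, ⟨_, hw⟩, rfl⟩
              exact ⟨w, hw, rfl⟩
          rw [h1]
          have h2 := Finset.card_image_le (s := X.erase (.inl ⟨i.val, by omega⟩)) (f := idx)
          rw [Finset.card_erase_of_mem hai] at h2
          have h3 : 0 < X.card := Finset.card_pos.2 ⟨_, hai⟩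
          omega
        let bad : Fin k := if i.val = 0 then ⟨k - 1, by omega⟩ else ⟨0, by omega⟩
        obtain ⟨j, _, hj⟩ : ∃ j ∈ (Finset.univ : Finset (Fin k)),
            j ∉ insert bad (X.image idx) := by
          apply Finset.exists_mem_notMem_of_card_lt_card
          rw [huniv]
          have := Finset.card_insert_le bad (X.image idx)
          omega
        rw [Finset.mem_insert, not_or] at hj
        obtain ⟨hja, hjv, hjc⟩ := hfree j hj.2
        have hji : j ≠ i := by
          rintro rfl
          exact hjc hci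
        refine Rch.trans (y := .inr (.inl j)) (Rch.single ?_ hx hjv)
          (Rch.trans (y := .inr (.inr j))
            (Rch.single (seedG_vc _) hjv hjc) (hC j hjc))
        rw [seedG_adj]
        simp only [seedAdj, vAdj]
        have hb := hj.1
        simp only [bad] at hb
        have hi2 := i.2
        have hj2 := j.2
        rw [ne_eq, Fin.ext_iff] at hji
        split_ifs at hb with h0
        · rw [Fin.ext_iff] at hb
          simp only at hb
          omega
        · rw [Fin.ext_iff] at hb
          simp only at hb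
          omega
      · refine Rch.trans (y := .inl ⟨i.val, by omega⟩) (Rch.single ?_ hx hai) (hA _ hai)
        rw [seedG_adj]
        simp only [seedAdj, TT]
        have := i.2
        omega
    · exact Rch.trans (y := .inr (.inr i))
        (Rch.single (seedG_vc _) hx hci) (hC i hci)
  · exact hC c hx

/-- the path in the seed -/
def seedPath (d k : ℕ) (hk : 1 ≤ k) (i : ℕ) : SW d k :=
  if i = 0 then .inl 0
  else if h : i ≤ k then .inr (.inl ⟨i - 1, by omega⟩)
  else if i = k + 1 then .inr (.inr ⟨k - 1, by omega⟩)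
  else .inr (.inr ⟨k - 2, by omega⟩)

theorem seed_bad {d k ℓ : ℕ} (hd : 3 ≤ d) (hk : 1 ≤ k) (hkd : k < d)
    (hl : ℓ = k + 1 ∨ (ℓ = k + 2 ∧ 2 ≤ k)) : ℓ ∉ S d k := by
  classical
  refine bad_of_seed (seedG d k) d k hk hkd.le (seed_kconn hk hkd) ?_
    (Finset.univ.image (fun c : Fin k => (Sum.inr (Sum.inr c) : SW d k))) ?_ ?_
    {w | ∃ a, w = Sum.inl a} ?_ (seedPath d k hk) ℓ ?_ ?_ ?_ ?_ ?_
  · rintro (a | i | c)
    · rw [seed_deg_A hk hkd]
    · exact seed_deg_V hd hk hkd i
    · rw [seed_deg_C hk]
      omega
  · rw [Finset.card_image_of_injective]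
    · simp
    · intro a b h
      simpa using h
  · intro x hx
    rw [Finset.mem_image] at hx
    obtain ⟨c, _, rfl⟩ := hx
    exact seed_deg_C hk c
  · rintro x ⟨a, rfl⟩
    exact seed_deg_A hk hkd a
  · intro i hi
    rw [seedG_adj]
    rcases Nat.eq_zero_or_pos i with h0 | h0
    · subst h0
      have e0 : seedPath d k hk 0 = .inl 0 := by simp [seedPath]
      have e1 : seedPath d k hk (0 + 1) = .inr (.inl ⟨0, by omega⟩) := by
        unfold seedPath
        rw [if_neg (by omega), dif_pos (by omega)]
      rw [e0, e1]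
      simp only [seedAdj, TT, Fin.val_zero]
      omega
    · by_cases h1 : i < k
      · have e0 : seedPath d k hk i = .inr (.inl ⟨i - 1, by omega⟩) := by
          unfold seedPath
          rw [if_neg (by omega), dif_pos (by omega)]
        have e1 : seedPath d k hk (i + 1) = .inr (.inl ⟨i, h1⟩) := by
          unfold seedPath
          rw [if_neg (by omega), dif_pos (by omega)]
          rfl
        rw [e0, e1]
        simp only [seedAdj, vAdj]
        omega
      · by_cases h2 : i = k
        · have e0 : seedPath d k hk i = .inr (.inl ⟨k - 1, by omega⟩) := by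
            unfold seedPath
            rw [if_neg (by omega), dif_pos (by omega)]
            simp [h2]
          have e1 : seedPath d k hk (i + 1) = .inr (.inr ⟨k - 1, by omega⟩) := by
            unfold seedPath
            rw [if_neg (by omega), dif_neg (by omega), if_pos (by omega)]
          rw [e0, e1]
          simp only [seedAdj]
        · have e0 : seedPath d k hk i = .inr (.inr ⟨k - 1, by omega⟩) := by
            unfold seedPath
            rw [if_neg (by omega), dif_neg (by omega), if_pos (by omega)]
          have e1 : seedPath d k hk (i + 1) = .inr (.inr ⟨k - 2, by omega⟩) := by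
            unfold seedPath
            rw [if_neg (by omega), dif_neg (by omega), if_neg (by omega)]
          rw [e0, e1]
          simp only [seedAdj, ne_eq, Fin.ext_iff]
          omega
  · intro i hi j hj hij
    unfold seedPath at hij
    split_ifs at hij <;> simp at hij <;> omega
  · exact ⟨0, by simp [seedPath]⟩
  · rintro ⟨a, ha⟩
    unfold seedPath at ha
    split_ifs at ha <;> first | omega | simp at ha
  · rintro x ⟨a, rfl⟩ y hy hxy
    rcases y with b | i | c
    · exact absurd ⟨b, rfl⟩ hy
    · refine ⟨i.val + 1, by omega, by have := i.2; omega, ?_⟩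
      unfold seedPath
      rw [if_neg (by omega), dif_pos (by have := i.2; omega)]
      simp
    · exact absurd hxy (by
        rw [seedG_adj]
        simp [seedAdj])

end Pool.Agent.H568.PC
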